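import Mathlib

set_option autoImplicit false
set_option linter.unusedSectionVars false

/-!
# Averages over finitely many random bits

`Ex L f c` is the average of `f` over all values of the bits at the positions in the list `L`,
the other bits being those of `c`.
-/

namespace Pool.Agent.Helper29.Mstd

variable {ι κ : Type*} [DecidableEq ι] [DecidableEq κ]

/-- Average over the bit at position `i`. -/
noncomputable def avg (i : ι) (f : (ι → Bool) → ℝ) : (ι → Bool) → ℝ :=
  fun c => (f (Function.update c i false) + f (Function.update c i true)) / 2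

/-- Average over the bits at the positions in `L`. -/
noncomputable def Ex (L : List ι) (f : (ι → Bool) → ℝ) : (ι → Bool) → ℝ := L.foldr avg f

@[simp] theorem Ex_nil (f : (ι → Bool) → ℝ) : Ex [] f = f := rfl

theorem Ex_cons (i : ι) (L : List ι) (f : (ι → Bool) → ℝ) :
    Ex (i :: L) f = avg i (Ex L f) := rfl

theorem Ex_cons_apply (i : ι) (L : List ι) (f : (ι → Bool) → ℝ) (c : ι → Bool) :
    Ex (i :: L) f c =
      (Ex L f (Function.update c i false) + Ex L f (Function.update c i true)) / 2 := rfl

theorem Ex_append (L₁ L₂ : List ι) (f : (ι → Bool) → ℝ) :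
    Ex (L₁ ++ L₂) f = Ex L₁ (Ex L₂ f) := by
  simp [Ex, List.foldr_append]

theorem avg_comm (i j : ι) (f : (ι → Bool) → ℝ) : avg i (avg j f) = avg j (avg i f) := by
  rcases eq_or_ne i j with rfl | h
  · rfl
  · funext c
    simp only [avg]
    rw [Function.update_comm h.symm, Function.update_comm h.symm, Function.update_comm h.symm,
      Function.update_comm h.symm]
    ring

instance : LeftCommutative (avg : ι → ((ι → Bool) → ℝ) → ((ι → Bool) → ℝ)) :=
  ⟨avg_comm⟩

theorem Ex_perm {L₁ L₂ : List ι} (h : L₁.Perm L₂) (f : (ι → Bool) → ℝ) : Ex L₁ f = Ex L₂ f := by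
  unfold Ex
  exact h.foldr_eq f

/-- `c'` agrees with `c` off the positions in `L`. -/
def Agree (L : List ι) (c c' : ι → Bool) : Prop := ∀ i, i ∉ L → c' i = c i

theorem Agree.refl (L : List ι) (c : ι → Bool) : Agree L c c := fun _ _ => rfl

theorem Agree.cons {i : ι} {L : List ι} {c c' : ι → Bool} {v : Bool}
    (h : Agree L (Function.update c i v) c') : Agree (i :: L) c c' := by
  intro j hj
  rw [List.mem_cons, not_or] at hj
  rw [h j hj.2, Function.update_of_ne hj.1]

theorem Ex_mono {L : List ι} {f g : (ι → Bool) → ℝ} {c : ι → Bool}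
    (h : ∀ c', Agree L c c' → f c' ≤ g c') : Ex L f c ≤ Ex L g c := by
  induction L generalizing c with
  | nil => exact h c (Agree.refl _ _)
  | cons i L ih =>
    rw [Ex_cons_apply, Ex_cons_apply]
    have h0 := ih (c := Function.update c i false) fun c' hc' => h c' hc'.cons
    have h1 := ih (c := Function.update c i true) fun c' hc' => h c' hc'.cons
    linarith

theorem Ex_congr {L : List ι} {f g : (ι → Bool) → ℝ} {c : ι → Bool}
    (h : ∀ c', Agree L c c' → f c' = g c') : Ex L f c = Ex L g c :=
  le_antisymm (Ex_mono fun c' hc' => (h c' hc').le) (Ex_mono fun c' hc' => (h c' hc').ge)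

@[simp] theorem Ex_const (L : List ι) (a : ℝ) (c : ι → Bool) : Ex L (fun _ => a) c = a := by
  induction L generalizing c with
  | nil => rfl
  | cons i L ih => rw [Ex_cons_apply, ih, ih]; ring

theorem Ex_eq_self {L : List ι} {f : (ι → Bool) → ℝ} {c : ι → Bool}
    (h : ∀ c', Agree L c c' → f c' = f c) : Ex L f c = f c := by
  rw [Ex_congr h, Ex_const]

theorem Ex_le_const {L : List ι} {f : (ι → Bool) → ℝ} {c : ι → Bool} {a : ℝ}
    (h : ∀ c', Agree L c c' → f c' ≤ a) : Ex L f c ≤ a := by
  have := Ex_mono (g := fun _ => a) h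
  rwa [Ex_const] at this

theorem Ex_nonneg {L : List ι} {f : (ι → Bool) → ℝ} {c : ι → Bool}
    (h : ∀ c', 0 ≤ f c') : 0 ≤ Ex L f c := by
  have := Ex_mono (L := L) (c := c) (f := fun _ => (0 : ℝ)) (g := f) fun c' _ => h c'
  rwa [Ex_const] at this

theorem Ex_add (L : List ι) (f g : (ι → Bool) → ℝ) (c : ι → Bool) :
    Ex L (fun c => f c + g c) c = Ex L f c + Ex L g c := by
  induction L generalizing c with
  | nil => rfl
  | cons i L ih => rw [Ex_cons_apply, Ex_cons_apply, Ex_cons_apply, ih, ih]; ring

theorem Ex_const_mul (L : List ι) (a : ℝ) (f : (ι → Bool) → ℝ) (c : ι → Bool) :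
    Ex L (fun c => a * f c) c = a * Ex L f c := by
  induction L generalizing c with
  | nil => rfl
  | cons i L ih => rw [Ex_cons_apply, Ex_cons_apply, ih, ih]; ring

theorem Ex_sub (L : List ι) (f g : (ι → Bool) → ℝ) (c : ι → Bool) :
    Ex L (fun c => f c - g c) c = Ex L f c - Ex L g c := by
  have h := Ex_add L f (fun c => (-1) * g c) c
  rw [Ex_const_mul] at h
  have e : (fun c => f c - g c) = fun c => f c + (-1) * g c := by
    funext c; ring
  rw [e, h]; ring

theorem Ex_sum {α : Type*} (L : List ι) (s : Finset α) (f : α → (ι → Bool) → ℝ) (c : ι → Bool) :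
    Ex L (fun c => ∑ a ∈ s, f a c) c = ∑ a ∈ s, Ex L (f a) c := by
  classical
  induction s using Finset.induction_on with
  | empty => simp
  | insert a s ha ih =>
    simp only [Finset.sum_insert ha]
    rw [Ex_add, ih]

theorem Ex_mul_left {L : List ι} {f g : (ι → Bool) → ℝ} {c : ι → Bool}
    (h : ∀ c', Agree L c c' → f c' = f c) :
    Ex L (fun c => f c * g c) c = f c * Ex L g c := by
  rw [← Ex_const_mul]
  exact Ex_congr fun c' hc' => by rw [h c' hc']

/-- `f` depends only on the bits at the positions in `D`. -/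
def DepOn (D : Set ι) (f : (ι → Bool) → ℝ) : Prop :=
  ∀ c c' : ι → Bool, (∀ i ∈ D, c i = c' i) → f c = f c'

theorem DepOn.mono {D D' : Set ι} {f : (ι → Bool) → ℝ} (h : DepOn D f) (hD : D ⊆ D') :
    DepOn D' f := fun c c' hc => h c c' fun i hi => hc i (hD hi)

theorem DepOn.ex {D : Set ι} {f : (ι → Bool) → ℝ} (h : DepOn D f) (L : List ι) :
    DepOn D (Ex L f) := by
  induction L with
  | nil => exact h
  | cons i L ih =>
    intro c c' hc
    rw [Ex_cons_apply, Ex_cons_apply]
    have key : ∀ v, Ex L f (Function.update c i v) = Ex L f (Function.update c' i v) := by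
      intro v
      apply ih
      intro j hj
      rcases eq_or_ne j i with rfl | hji
      · simp
      · rw [Function.update_of_ne hji, Function.update_of_ne hji, hc j hj]
    rw [key, key]

theorem DepOn.update {D : Set ι} {f : (ι → Bool) → ℝ} (h : DepOn D f) {i : ι} (hi : i ∉ D)
    (c : ι → Bool) (v : Bool) : f (Function.update c i v) = f c := by
  apply h
  intro j hj
  rw [Function.update_of_ne]
  rintro rfl
  exact hi hj

theorem DepOn.agree {D : Set ι} {f : (ι → Bool) → ℝ} (h : DepOn D f) {L : List ι}
    (hL : ∀ i ∈ L, i ∉ D) {c c' : ι → Bool} (hc : Agree L c c') : f c' = f c := by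
  apply h
  intro j hj
  exact hc j fun hjL => hL j hjL hj

theorem DepOn.mul {D : Set ι} {f g : (ι → Bool) → ℝ} (hf : DepOn D f) (hg : DepOn D g) :
    DepOn D (fun c => f c * g c) := fun c c' h => by
  simp only
  rw [hf c c' h, hg c c' h]

theorem DepOn.prod {α : Type*} {D : Set ι} (s : Finset α) {f : α → (ι → Bool) → ℝ}
    (hf : ∀ a ∈ s, DepOn D (f a)) : DepOn D (fun c => ∏ a ∈ s, f a c) := fun c c' h => by
  exact Finset.prod_congr rfl fun a ha => hf a ha c c' h

/-- Independence: functions of disjoint sets of bits. -/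
theorem Ex_mul_indep {D D' : Set ι} {f g : (ι → Bool) → ℝ} (hf : DepOn D f) (hg : DepOn D' g)
    (hD : Disjoint D D') (L : List ι) (c : ι → Bool) :
    Ex L (fun c => f c * g c) c = Ex L f c * Ex L g c := by
  induction L generalizing c with
  | nil => rfl
  | cons i L ih =>
    rw [Ex_cons_apply, Ex_cons_apply, Ex_cons_apply, ih, ih]
    by_cases hi : i ∈ D
    · have hi' : i ∉ D' := fun h => Set.disjoint_left.1 hD hi h
      rw [(hg.ex L).update hi', (hg.ex L).update hi']
      ring
    · rw [(hf.ex L).update hi, (hf.ex L).update hi]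
      ring

theorem Ex_prod_indep {α : Type*} [DecidableEq α] (s : Finset α) {D : α → Set ι}
    {f : α → (ι → Bool) → ℝ} (hf : ∀ a ∈ s, DepOn (D a) (f a))
    (hD : ∀ a ∈ s, ∀ b ∈ s, a ≠ b → Disjoint (D a) (D b)) (L : List ι) (c : ι → Bool) :
    Ex L (fun c => ∏ a ∈ s, f a c) c = ∏ a ∈ s, Ex L (f a) c := by
  induction s using Finset.induction_on with
  | empty => simp
  | insert a s ha ih =>
    simp only [Finset.prod_insert ha]
    rw [← ih (fun b hb => hf b (Finset.mem_insert_of_mem hb))
      (fun b hb b' hb' => hD b (Finset.mem_insert_of_mem hb) b' (Finset.mem_insert_of_mem hb'))]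
    apply Ex_mul_indep (D := D a) (D' := ⋃ b ∈ s, D b) (hf a (Finset.mem_insert_self _ _))
    · apply DepOn.prod
      intro b hb
      exact (hf b (Finset.mem_insert_of_mem hb)).mono (Set.subset_biUnion_of_mem hb)
    · rw [Set.disjoint_iUnion₂_right]
      intro b hb
      exact hD a (Finset.mem_insert_self _ _) b (Finset.mem_insert_of_mem hb)
        (by rintro rfl; exact ha hb)

/-- Change of variables. -/
theorem Ex_map (φ : ι → κ) {D : Set ι} (hφ : Set.InjOn φ D) {f : (ι → Bool) → ℝ}
    (hf : DepOn D f) (L : List ι) (hL : ∀ i ∈ L, i ∈ D) (s : κ → Bool) :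
    Ex (L.map φ) (fun s => f (fun i => s (φ i))) s = Ex L f (fun i => s (φ i)) := by
  induction L generalizing s with
  | nil => rfl
  | cons i L ih =>
    rw [List.map_cons, Ex_cons_apply, Ex_cons_apply,
      ih (fun j hj => hL j (List.mem_cons_of_mem _ hj)),
      ih (fun j hj => hL j (List.mem_cons_of_mem _ hj))]
    have key : ∀ v, Ex L f (fun j => Function.update s (φ i) v (φ j)) =
        Ex L f (Function.update (fun j => s (φ j)) i v) := by
      intro v
      apply hf.ex L
      intro j hj
      rcases eq_or_ne j i with rfl | hji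
      · simp
      · rw [Function.update_of_ne hji, Function.update_of_ne]
        intro h
        exact hji (hφ hj (hL i List.mem_cons_self) h)
    rw [key, key]

theorem Ex_abs_le {L : List ι} {f g : (ι → Bool) → ℝ} {c : ι → Bool}
    (h : ∀ c', Agree L c c' → |f c'| ≤ g c') : |Ex L f c| ≤ Ex L g c := by
  rw [abs_le]
  constructor
  · have := Ex_mono (L := L) (c := c) (f := fun c => (-1) * g c) (g := f) fun c' hc' => by
      have := (abs_le.1 (h c' hc')).1
      linarith
    rw [Ex_const_mul] at this
    linarith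
  · exact Ex_mono fun c' hc' => (abs_le.1 (h c' hc')).2

end Pool.Agent.Helper29.Mstd
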