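import Pool.Agent.Helper29.Mstd.Limit

set_option autoImplicit false
set_option linter.unusedSimpArgs false
set_option linter.unusedVariables false

/-!
# The chain of inequalities
-/

namespace Pool.Agent.Helper29.Mstd

theorem q1_lt_q2 : qq 1 < qq 2 := by
  have := fB
  simp only [qq, pp]
  linarith

theorem q3_lt_q1 : qq 3 < qq 1 := by
  have := fC2
  simp only [qq, pp]
  linarith

theorem q0_lt_q3 : qq 0 < qq 3 := by
  have := fC3
  simp only [qq, pp]
  linarith

theorem q4_lt_q0 : qq 4 < qq 0 := by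
  have := fA
  simp only [qq, pp]
  linarith

theorem pp_eq (k : ℕ) : 2 ^ (k + 1) * pp k = ∑ j ∈ Finset.range (k + 1), (2 : ℝ) ^ j * r j := by
  induction k with
  | zero =>
    simp [pp]
    ring
  | succ k ih =>
    rw [Finset.sum_range_succ, ← ih, pp]
    ring

theorem qq_eq (k : ℕ) : 2 ^ (k + 2) * qq k =
    ∑ i ∈ Finset.range (k + 1), ∑ j ∈ Finset.range (i + 1), (2 : ℝ) ^ j * r j := by
  induction k with
  | zero =>
    simp [qq, pp]
    ring
  | succ k ih =>
    rw [Finset.sum_range_succ, ← ih, ← pp_eq, qq]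
    ring

theorem qq_lt {k : ℕ} (h : ∑ j ∈ Finset.range (k + 2), (2 : ℝ) ^ j * r j <
    ∑ i ∈ Finset.range (k + 1), ∑ j ∈ Finset.range (i + 1), (2 : ℝ) ^ j * r j) :
    qq (k + 1) < qq k := by
  rw [← qq_eq, ← pp_eq] at h
  have h1 : pp (k + 1) < qq k := by
    have h2 : (0 : ℝ) < 2 ^ (k + 2) := by positivity
    rw [show k + 1 + 1 = k + 2 by ring] at h
    exact lt_of_mul_lt_mul_left h h2.le
  rw [qq]
  linarith

theorem big {k : ℕ} (hk : 10 ≤ k) : qq (k + 1) < qq k := by
  apply qq_lt
  have h1 := r_sum_two (k + 2)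
  have h2 := fK10
  have h0 : ∀ i, 0 ≤ ∑ j ∈ Finset.range (i + 1), (2 : ℝ) ^ j * r j :=
    fun i => Finset.sum_nonneg fun j _ => mul_nonneg (by positivity) (r_nonneg j)
  have h3 : ∑ i ∈ Finset.range 11, ∑ j ∈ Finset.range (i + 1), (2 : ℝ) ^ j * r j ≤
      ∑ i ∈ Finset.range (k + 1), ∑ j ∈ Finset.range (i + 1), (2 : ℝ) ^ j * r j := by
    apply Finset.sum_le_sum_of_subset_of_nonneg
    · intro i hi
      rw [Finset.mem_range] at hi ⊢
      omega
    · intro i _ _
      exact h0 i
  refine lt_of_lt_of_le ?_ h3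
  refine lt_of_le_of_lt h1 ?_
  simp only [Finset.sum_range_succ, Finset.sum_range_zero]
  have g5 := r_nonneg 5
  have g6 := r_nonneg 6
  have g7 := r_nonneg 7
  have g8 := r_nonneg 8
  have g9 := r_nonneg 9
  have g10 := r_nonneg 10
  norm_num
  linarith

theorem small4 : qq 5 < qq 4 := by
  apply qq_lt
  have h1 := r_sum_three 6
  have h2 := fK4
  simp only [Finset.sum_range_succ, Finset.sum_range_zero] at h1 ⊢
  have g0 := r_nonneg 0
  have g1 := r_nonneg 1
  have g2 := r_nonneg 2
  have g3 := r_nonneg 3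
  have g4 := r_nonneg 4
  have g5 := r_nonneg 5
  norm_num at h1 ⊢
  linarith

theorem small5 : qq 6 < qq 5 := by
  apply qq_lt
  have h1 := r_sum_three 7
  have h2 := fK5
  simp only [Finset.sum_range_succ, Finset.sum_range_zero] at h1 ⊢
  have g0 := r_nonneg 0
  have g1 := r_nonneg 1
  have g2 := r_nonneg 2
  have g3 := r_nonneg 3
  have g4 := r_nonneg 4
  have g5 := r_nonneg 5
  have g6 := r_nonneg 6
  norm_num at h1 ⊢
  linarith

theorem small6 : qq 7 < qq 6 := by
  apply qq_lt
  have h1 := r_sum_three 8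
  have h2 := fK6
  simp only [Finset.sum_range_succ, Finset.sum_range_zero] at h1 ⊢
  have g0 := r_nonneg 0
  have g1 := r_nonneg 1
  have g2 := r_nonneg 2
  have g3 := r_nonneg 3
  have g4 := r_nonneg 4
  have g5 := r_nonneg 5
  have g6 := r_nonneg 6
  have g7 := r_nonneg 7
  norm_num at h1 ⊢
  linarith

theorem small7 : qq 8 < qq 7 := by
  apply qq_lt
  have h1 := r_sum_three 9
  have h2 := fK7
  simp only [Finset.sum_range_succ, Finset.sum_range_zero] at h1 ⊢
  have g0 := r_nonneg 0
  have g1 := r_nonneg 1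
  have g2 := r_nonneg 2
  have g3 := r_nonneg 3
  have g4 := r_nonneg 4
  have g5 := r_nonneg 5
  have g6 := r_nonneg 6
  have g7 := r_nonneg 7
  have g8 := r_nonneg 8
  norm_num at h1 ⊢
  linarith

theorem small8 : qq 9 < qq 8 := by
  apply qq_lt
  have h1 := r_sum_three 10
  have h2 := fK8
  simp only [Finset.sum_range_succ, Finset.sum_range_zero] at h1 ⊢
  have g0 := r_nonneg 0
  have g1 := r_nonneg 1
  have g2 := r_nonneg 2
  have g3 := r_nonneg 3
  have g4 := r_nonneg 4
  have g5 := r_nonneg 5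
  have g6 := r_nonneg 6
  have g7 := r_nonneg 7
  have g8 := r_nonneg 8
  have g9 := r_nonneg 9
  norm_num at h1 ⊢
  linarith

theorem small9 : qq 10 < qq 9 := by
  apply qq_lt
  have h1 := r_sum_three 11
  have h2 := fK9
  simp only [Finset.sum_range_succ, Finset.sum_range_zero] at h1 ⊢
  have g0 := r_nonneg 0
  have g1 := r_nonneg 1
  have g2 := r_nonneg 2
  have g3 := r_nonneg 3
  have g4 := r_nonneg 4
  have g5 := r_nonneg 5
  have g6 := r_nonneg 6
  have g7 := r_nonneg 7
  have g8 := r_nonneg 8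
  have g9 := r_nonneg 9
  have g10 := r_nonneg 10
  norm_num at h1 ⊢
  linarith

/-- The chain for `k ≥ 4`. -/
theorem qq_anti {k : ℕ} (hk : 4 ≤ k) : qq (k + 1) < qq k := by
  rcases Nat.lt_or_ge k 10 with h | h
  · interval_cases k
    · exact small4
    · exact small5
    · exact small6
    · exact small7
    · exact small8
    · exact small9
  · exact big h

end Pool.Agent.Helper29.Mstd
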