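import Pool.Agent.Helper29.Mstd.SetModel

set_option autoImplicit false
set_option linter.unusedSimpArgs false
set_option linter.unusedVariables false

/-!
# Comparison of one random set with two independent random sets
-/

namespace Pool.Agent.Helper29.Mstd

/-- The indices of the disjoint pairs `{x, x + d}`. -/
def II (d L : ℕ) : Finset ℕ := (Finset.Icc 1 L).filter fun x => (x - 1) / d % 2 = 0

theorem card_II {d : ℕ} (hd : 1 ≤ d) (L : ℕ) : L ≤ 2 * (II d L).card := by
  have h1 : ((Finset.Icc 1 L).filter fun x => ¬ ((x - 1) / d % 2 = 0)).card ≤ (II d L).card := by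
    apply Finset.card_le_card_of_injOn (fun x => x - d)
    · intro x hx
      simp only [Finset.coe_filter, Finset.mem_Icc, Set.mem_ofPred_eq] at hx
      simp only [II, Finset.coe_filter, Finset.mem_Icc, Set.mem_ofPred_eq]
      have h2 : d ≤ x - 1 := by
        by_contra hcon
        rw [not_le] at hcon
        exact hx.2 (by rw [Nat.div_eq_of_lt hcon])
      have h3 : x - 1 = (x - d - 1) + d := by omega
      have h4 : (x - 1) / d = (x - d - 1) / d + 1 := by
        rw [h3, Nat.add_div_right _ (by omega)]
      refine ⟨by omega, by omega⟩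
    · intro x hx y hy h
      simp only [Finset.coe_filter, Finset.mem_Icc, Set.mem_ofPred_eq] at hx hy
      have h2 : d ≤ x - 1 := by
        by_contra hcon
        rw [not_le] at hcon
        exact hx.2 (by rw [Nat.div_eq_of_lt hcon])
      have h3 : d ≤ y - 1 := by
        by_contra hcon
        rw [not_le] at hcon
        exact hy.2 (by rw [Nat.div_eq_of_lt hcon])
      simp only at h
      omega
  have h2 := Finset.card_filter_add_card_filter_not (s := Finset.Icc 1 L)
    (fun x => (x - 1) / d % 2 = 0)
  rw [Nat.card_Icc] at h2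
  unfold II at h1 ⊢
  omega

/-- indicator that not both `x` and `y` are in the set -/
noncomputable def pf (x y : ℕ) (s : ℕ → Bool) : ℝ := if s x && s y then 0 else 1

theorem pf_dep (x y : ℕ) : DepOn {i : ℕ | i = x ∨ i = y} (pf x y) := by
  intro s s' h
  unfold pf
  rw [h x (by simp), h y (by simp)]

theorem ex_pf {x y : ℕ} (hxy : x ≠ y) {L : List ℕ} (hnd : L.Nodup) (hx : x ∈ L) (hy : y ∈ L)
    (s : ℕ → Bool) : Ex L (pf x y) s = 3 / 4 := by
  rw [Ex_pair (pf_dep x y) hnd hx hy hxy (fun i _ h => h)]
  simp only [Ex_cons_apply, Ex_nil, pf]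
  simp only [Function.update_self, Function.update_of_ne hxy, Function.update_of_ne hxy.symm]
  norm_num

open Classical in
/-- The probability that `n - 1 - i` is a missing difference. -/
theorem dmiss_ex {n i : ℕ} (hi : 1 ≤ i) (hi' : i + 1 < n) (s : ℕ → Bool) :
    Ex (List.range' 1 (n - 2)) (fun s => if DMiss s n (n - 1 - i) then (1 : ℝ) else 0) s ≤
      (9 / 10) ^ (i - 1) := by
  set d := n - 1 - i with hd
  have hle : ∀ s' : ℕ → Bool, (if DMiss s' n d then (1 : ℝ) else 0) ≤
      ∏ x ∈ II d (i - 1), pf x (x + d) s' := by
    intro s'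
    split_ifs with h
    · apply le_of_eq
      symm
      apply Finset.prod_eq_one
      intro x hx
      unfold II at hx
      rw [Finset.mem_filter, Finset.mem_Icc] at hx
      unfold pf
      rw [if_neg]
      have := h x (by omega)
      simpa using this
    · apply Finset.prod_nonneg
      intro x _
      unfold pf
      split_ifs <;> norm_num
  refine (Ex_mono fun s' _ => hle s').trans ?_
  rw [Ex_prod_indep (II d (i - 1)) (f := fun x => pf x (x + d))
    (D := fun x => {j : ℕ | j = x ∨ j = x + d})]
  · rw [Finset.prod_congr rfl (g := fun _ => (3 / 4 : ℝ)), Finset.prod_const]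
    · have h1 := card_II (d := d) (by omega) (i - 1)
      calc ((3 : ℝ) / 4) ^ (II d (i - 1)).card ≤ ((9 / 10 : ℝ) ^ 2) ^ (II d (i - 1)).card := by
            apply pow_le_pow_left₀ (by norm_num)
            norm_num
        _ = (9 / 10 : ℝ) ^ (2 * (II d (i - 1)).card) := by rw [← pow_mul]
        _ ≤ _ := by
            apply pow_le_pow_of_le_one (by norm_num) (by norm_num) h1
    · intro x hx
      unfold II at hx
      rw [Finset.mem_filter, Finset.mem_Icc] at hx
      apply ex_pf (by omega) List.nodup_range'
      · rw [List.mem_range'_1]; omega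
      · rw [List.mem_range'_1]; omega
  · intro x _
    exact pf_dep _ _
  · intro x hx y hy hne
    unfold II at hx hy
    rw [Finset.mem_filter, Finset.mem_Icc] at hx hy
    rw [Set.disjoint_left]
    intro j hj hj'
    simp only [Set.mem_ofPred_eq] at hj hj'
    have hd1 : 1 ≤ d := by omega
    have key : ∀ x y : ℕ, 1 ≤ x → 1 ≤ y → x = y + d → (x - 1) / d % 2 = 0 →
        (y - 1) / d % 2 = 0 → False := by
      intro x y h1 h2 h3 h4 h5
      rw [show x - 1 = (y - 1) + d by omega, Nat.add_div_right _ (by omega)] at h4
      omega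
    rcases hj with rfl | rfl
    · rcases hj' with h | h
      · exact hne h
      · exact key _ _ hx.1.1 hy.1.1 h hx.2 hy.2
    · rcases hj' with h | h
      · exact key _ _ hy.1.1 hx.1.1 h.symm hy.2 hx.2
      · exact hne (by omega)

/-- The map from positions of the two-set model. -/
def phi (n : ℕ) (x : ℕ × Bool) : ℕ := if x.2 then n - 1 - x.1 else x.1

theorem phi_inj {n M : ℕ} (h : 2 * M ≤ n) : Set.InjOn (phi n) {x : ℕ × Bool | x.1 < M} := by
  rintro ⟨i, b⟩ hi ⟨j, b'⟩ hj hij
  simp only [Set.mem_ofPred_eq] at hi hj
  unfold phi at hij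
  cases b <;> cases b' <;> simp only [if_true, if_false, Bool.false_eq_true] at hij
  · rw [hij]
  · omega
  · omega
  · have : i = j := by omega
    rw [this]

theorem miss_phi {n M i : ℕ} (h : 2 * M ≤ n) (hi : i < M) (s : ℕ → Bool) :
    Miss (fun x => s (phi n x)) i ↔ DMiss s n (n - 1 - i) := by
  unfold Miss DMiss phi
  simp only [if_true, if_false, Bool.false_eq_true]
  constructor
  · intro H x hx hc
    apply H x (by omega)
    rw [show n - 1 - (i - x) = x + (n - 1 - i) by omega]
    exact hc
  · intro H j hj hc
    apply H j (by omega)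
    rw [show j + (n - 1 - i) = n - 1 - (i - j) by omega]
    exact hc

theorem mD_phi {n M : ℕ} (hM : 1 ≤ M) (h : 2 * M ≤ n) {s : ℕ → Bool} (h0 : s 0 = true)
    (h1 : s (n - 1) = true) :
    ∃ t : ℕ, mD s n = cnt (fun x => s (phi n x)) M + t ∧
      (t : ℝ) ≤ ∑ i ∈ Finset.Ico M (n - 1), by
        classical exact (if DMiss s n (n - 1 - i) then (1 : ℝ) else 0) := by
  classical
  refine ⟨((Finset.Ico M (n - 1)).filter fun i => DMiss s n (n - 1 - i)).card, ?_, ?_⟩
  · have e : ((Finset.Ico 1 n).filter (DMiss s n)).card =
        ((Finset.Ico 1 (n - 1)).filter fun i => DMiss s n (n - 1 - i)).card := by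
      apply Finset.card_nbij' (fun d => n - 1 - d) (fun i => n - 1 - i)
      · intro d hd
        simp only [Finset.coe_filter, Finset.mem_Ico, Set.mem_ofPred_eq] at hd ⊢
        have hd' : d ≠ n - 1 := by
          rintro rfl
          apply hd.2 0 (by omega)
          rw [Nat.zero_add]
          exact ⟨h0, h1⟩
        refine ⟨by omega, ?_⟩
        rw [show n - 1 - (n - 1 - d) = d by omega]
        exact hd.2
      · intro i hi
        simp only [Finset.coe_filter, Finset.mem_Ico, Set.mem_ofPred_eq] at hi ⊢
        exact ⟨by omega, hi.2⟩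
      · intro d hd
        simp only [Finset.coe_filter, Finset.mem_Ico, Set.mem_ofPred_eq] at hd
        dsimp only
        omega
      · intro i hi
        simp only [Finset.coe_filter, Finset.mem_Ico, Set.mem_ofPred_eq] at hi
        dsimp only
        omega
    unfold mD cnt
    rw [e, ← Finset.Ico_union_Ico_eq_Ico hM (by omega : M ≤ n - 1), Finset.filter_union,
      Finset.card_union_of_disjoint]
    · congr 1
      congr 1
      apply Finset.filter_congr
      intro i hi
      rw [Finset.mem_Ico] at hi
      exact (miss_phi h hi.2 s).symm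
    · apply Finset.disjoint_filter_filter
      exact Finset.Ico_disjoint_Ico_consecutive _ _ _
  · rw [Finset.card_filter]
    push_cast
    rfl

theorem geo_tail {M : ℕ} (hM : 1 ≤ M) (n : ℕ) :
    ∑ i ∈ Finset.Ico M n, (9 / 10 : ℝ) ^ (i - 1) ≤ 10 * (9 / 10) ^ (M - 1) := by
  have key : ∀ a b : ℕ, ∑ i ∈ Finset.Ico a (a + b), (9 / 10 : ℝ) ^ i ≤
      10 * (9 / 10) ^ a - 10 * (9 / 10) ^ (a + b) := by
    intro a b
    induction b with
    | zero => simp
    | succ b ih =>
      rw [← add_assoc, Finset.sum_Ico_succ_top (by omega), pow_succ]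
      linarith
  rcases Nat.lt_or_ge n M with h | h
  · rw [Finset.Ico_eq_empty (by omega), Finset.sum_empty]
    positivity
  · have h1 : ∑ i ∈ Finset.Ico M n, (9 / 10 : ℝ) ^ (i - 1) =
        ∑ i ∈ Finset.Ico (M - 1) (M - 1 + (n - M)), (9 / 10 : ℝ) ^ i := by
      rw [Finset.sum_Ico_eq_sum_range, Finset.sum_Ico_eq_sum_range]
      apply Finset.sum_congr (by congr 1; omega)
      intro i _
      congr 1
      omega
    rw [h1]
    have := key (M - 1) (n - M)
    have h2 : (0 : ℝ) ≤ (9 / 10) ^ (M - 1 + (n - M)) := by positivity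
    linarith

theorem Rt_rM {n M : ℕ} (hM : 1 ≤ M) (h : 2 * M ≤ n) (k : ℕ) :
    |Rt n k - rM M k| ≤ 10 * (9 / 10) ^ (M - 1) := by
  classical
  set g : (ℕ → Bool) → ℝ := fun s => if cnt (fun x => s (phi n x)) M = k then 1 else 0 with hg
  have h1 : Ex (List.range' 1 (n - 2)) g sT = rM M k := by
    have hdep : DepOn {x : ℕ × Bool | x.1 < M}
        (fun c : Cfg => if cnt c M = k then (1 : ℝ) else 0) := by
      intro c c' hc
      simp only
      rw [cnt_congr fun j hj b => hc (j, b) hj]
    have hmap := Ex_map (phi n) (phi_inj h) hdep (reg 1 (M - 1)) (by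
      intro x hx
      rw [mem_reg] at hx
      simp only [Set.mem_ofPred_eq]
      omega) sT
    have e1 : (fun i => sT (phi n i)) = c0 := rfl
    rw [e1] at hmap
    unfold rM
    rw [← hmap]
    have hnd : ((reg 1 (M - 1)).map (phi n)).Nodup := by
      rw [List.nodup_map_iff_inj_on (reg_nodup _ _)]
      intro x hx y hy hxy
      rw [mem_reg] at hx hy
      exact phi_inj h (by simp only [Set.mem_ofPred_eq]; omega)
        (by simp only [Set.mem_ofPred_eq]; omega) hxy
    -- the list of all positions is a permutation of these and the middle ones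
    have hperm : (List.range' 1 (n - 2)).Perm
        ((reg 1 (M - 1)).map (phi n) ++ List.range' M (n - 2 * M)) := by
      rw [List.perm_ext_iff_of_nodup List.nodup_range']
      · intro i
        rw [List.mem_append, List.mem_range'_1, List.mem_range'_1, List.mem_map]
        constructor
        · intro hi
          by_cases h2 : i < M
          · left
            exact ⟨(i, false), mem_reg.2 (by simp only; omega), by simp [phi]⟩
          · by_cases h3 : i < n - M
            · right; omega
            · left
              exact ⟨(n - 1 - i, true), mem_reg.2 (by simp only; omega), by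
                simp only [phi, if_true]; omega⟩
        · rintro (⟨⟨j, b⟩, hj, rfl⟩ | hi)
          · rw [mem_reg] at hj
            simp only at hj
            unfold phi
            cases b <;> simp only [if_true, if_false, Bool.false_eq_true] <;> omega
          · omega
      · rw [List.nodup_append]
        refine ⟨hnd, List.nodup_range', ?_⟩
        intro x hx y hy
        rw [List.mem_map] at hx
        obtain ⟨⟨j, b⟩, hj, rfl⟩ := hx
        rw [mem_reg] at hj
        rw [List.mem_range'_1] at hy
        simp only at hj
        unfold phi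
        cases b <;> simp only [if_true, if_false, Bool.false_eq_true] <;> omega
    rw [Ex_perm hperm]
    apply congrFun
    funext s
    apply Ex_drop_right (D := {i : ℕ | i < M ∨ n - M ≤ i})
    · intro s s' hs
      simp only [hg]
      rw [cnt_congr]
      intro j hj b
      apply hs
      unfold phi
      simp only [Set.mem_ofPred_eq]
      cases b <;> simp only [if_true, if_false, Bool.false_eq_true] <;> omega
    · intro i hi
      rw [List.mem_range'_1] at hi
      simp only [Set.mem_ofPred_eq]
      omega
  have h2 : Rt n k - rM M k = Ex (List.range' 1 (n - 2)) (fun s => fk n k s - g s) sT := by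
    rw [Ex_sub, h1]; rfl
  rw [h2]
  have h3 : ∀ s : ℕ → Bool, Agree (List.range' 1 (n - 2)) sT s → |fk n k s - g s| ≤
      ∑ i ∈ Finset.Ico M (n - 1), (if DMiss s n (n - 1 - i) then (1 : ℝ) else 0) := by
    intro s hs
    have hs0 : s 0 = true := by
      rw [hs 0 (by rw [List.mem_range'_1]; omega)]; rfl
    have hs1 : s (n - 1) = true := by
      rw [hs (n - 1) (by rw [List.mem_range'_1]; omega)]; rfl
    obtain ⟨t, ht, ht'⟩ := mD_phi hM h hs0 hs1
    refine le_trans ?_ ht'
    unfold fk
    simp only [hg, ht]
    rcases Nat.eq_zero_or_pos t with rfl | htpos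
    · simp
    · have : (1 : ℝ) ≤ t := by exact_mod_cast htpos
      refine le_trans ?_ this
      split_ifs <;> norm_num
  refine (Ex_abs_le h3).trans ?_
  rw [Ex_sum]
  have h4 := geo_tail hM (n - 1)
  refine le_trans (Finset.sum_le_sum fun i hi => ?_) h4
  rw [Finset.mem_Ico] at hi
  exact dmiss_ex (by omega) (by omega) sT

end Pool.Agent.Helper29.Mstd
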