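import Mathlib

set_option autoImplicit false

/-!
# Missing differences of a random subset of `[n] = {0, …, n - 1}`: definitions
-/

namespace Pool.Agent.Helper29.MissingDifferences

/-- The difference set `S - S = {x - y : x, y ∈ S}`, a finite set of integers. -/
def diffSet (S : Finset ℕ) : Finset ℤ :=
  Finset.image₂ (fun x y : ℕ => (x : ℤ) - (y : ℤ)) S S

/-- The number `2 n - 1 - |S - S|` of missing differences of a subset `S` of
`{0, …, n - 1}`. -/
def missing (n : ℕ) (S : Finset ℕ) : ℕ := 2 * n - 1 - (diffSet S).card

/-- `P n k` is the probability that a uniformly random subset `S` of `{0, …, n - 1}` has exactly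
`k` missing differences: the number of such subsets divided by `2 ^ n`. -/
noncomputable def P (n k : ℕ) : ℝ :=
  (((Finset.range n).powerset.filter fun S => missing n S = k).card : ℝ) / 2 ^ n

end Pool.Agent.Helper29.MissingDifferences
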