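import Pool.Agent.Helper29.Mstd.Lag

set_option autoImplicit false
set_option linter.unusedSimpArgs false

/-!
# The bound for the average of `x ^ (number of missing elements)`
-/

namespace Pool.Agent.Helper29.Mstd

theorem J_zero (x : ℝ) (m : ℕ) (c : Cfg) :
    J x m 0 m c = if Miss c m then x ^ cnt c m else 0 := by
  unfold J
  split_ifs
  · rw [Finset.prod_ite, Finset.prod_const, Finset.prod_const_one, mul_one]
    rfl
  · rfl

section

variable {x θ : ℝ} (P : Pot x θ)

theorem z_bound {m : ℕ} (hm : 1 ≤ m) (c : Cfg) (h0 : ∀ b, c (0, b) = true) :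
    Ex (reg 1 m) (fun c => if Miss c m then x ^ cnt c m else 0) c ≤
      P.KK ((m - 1) / 2) / 4 := by
  have e : (fun c : Cfg => if Miss c m then x ^ cnt c m else 0) = J x m 0 m := by
    funext c; rw [J_zero]
  rw [e]
  obtain ⟨n, rfl⟩ : ∃ n, m = n + 1 := ⟨m - 1, by omega⟩
  rw [Ex_perm (reg_perm' 1 n), Ex_append, Ex_two, Nat.add_sub_cancel]
  have h0' : ∀ a b b' : Bool, set2 c (1 + n) a b (0, b') = true := by
    intro a b b'
    rw [set2_ne _ (by omega), h0]
  have hzero : ∀ a b : Bool, (a = true ∨ b = true) →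
      Ex (reg 1 n) (J x (n + 1) 0 (n + 1)) (set2 c (1 + n) a b) ≤ 0 := by
    intro a b hab
    refine Ex_le_const fun d hd => le_of_eq ?_
    unfold J
    rw [if_neg]
    intro hM
    have hd0 : ∀ b, d (0, b) = true := by
      intro b'
      rw [hd (0, b') (by rw [mem_reg]; simp), h0']
    have := hM.zz hd0
    unfold zz at this
    rw [hd _ (by rw [mem_reg]; simp only; omega), hd _ (by rw [mem_reg]; simp only; omega),
      show n + 1 = 1 + n by omega, set2_false, set2_true] at this
    rcases hab with rfl | rfl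
    · simp at this
    · simp at this
  have h1 := hzero false true (Or.inr rfl)
  have h2 := hzero true false (Or.inl rfl)
  have h3 := hzero true true (Or.inl rfl)
  have h4 := run_bound P (m := n + 1) (h := n / 2) (by omega) (n / 2) 0 (by omega)
    (set2 c (1 + n) false false) (h0' _ _) (fun i h h' => by omega)
  simp only [Nat.mul_zero, Nat.sub_zero, Nat.add_sub_cancel, Finset.Ioc_self,
    Finset.prod_empty, mul_one, Nat.zero_add] at h4
  linarith

theorem e_succ {M : ℕ} (hM : 1 ≤ M) (c : Cfg) (h0 : ∀ b, c (0, b) = true) :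
    Ex (reg 1 M) (fun c => x ^ cnt c (M + 1)) c ≤
      Ex (reg 1 (M - 1)) (fun c => x ^ cnt c M) c + (x - 1) * (P.KK ((M - 1) / 2) / 4) := by
  have e : (fun c : Cfg => x ^ cnt c (M + 1)) = fun c => x ^ cnt c M +
      (x - 1) * (if Miss c M then x ^ cnt c M else 0) := by
    funext c
    rw [cnt_succ c hM]
    split_ifs
    · rw [pow_succ]; ring
    · simp
  rw [e, Ex_add, Ex_const_mul]
  have hx := P.one_le
  have h1 := mul_le_mul_of_nonneg_left (z_bound P hM c h0) (by linarith : 0 ≤ x - 1)
  have h2 : Ex (reg 1 M) (fun c => x ^ cnt c M) c = Ex (reg 1 (M - 1)) (fun c => x ^ cnt c M) c := by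
    obtain ⟨n, rfl⟩ : ∃ n, M = n + 1 := ⟨M - 1, by omega⟩
    rw [reg_succ', Ex_append, Nat.add_sub_cancel]
    apply Ex_congr
    intro c' _
    apply Ex_eq_self
    intro c'' hc''
    congr 1
    apply cnt_congr
    intro j hj b
    apply hc''
    simp
    omega
  rw [h2]
  linarith

theorem e_sum (M : ℕ) (c : Cfg) (h0 : ∀ b, c (0, b) = true) :
    Ex (reg 1 M) (fun c => x ^ cnt c (M + 1)) c ≤
      1 + (x - 1) / 4 * ∑ i ∈ Finset.range M, P.KK (i / 2) := by
  induction M with
  | zero =>
    simp [reg_zero, cnt]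
  | succ M ih =>
    have := e_succ P (M := M + 1) (by omega) c h0
    rw [Nat.add_sub_cancel] at this
    rw [Finset.sum_range_succ]
    linarith

theorem KK_sum (hy : P.y < 1) (H : ℕ) :
    ∑ n ∈ Finset.range H, P.KK n ≤ (1 + P.b / (1 - θ)) / (1 - P.y) := by
  have hy' : 0 < 1 - P.y := by linarith
  have hθ : 0 < 1 - θ := by linarith [P.θ_lt]
  induction H with
  | zero =>
    rw [Finset.sum_range_zero]
    have := P.b_nonneg
    positivity
  | succ H ih =>
    rw [Finset.sum_range_succ']
    simp only [Pot.KK]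
    rw [Finset.sum_add_distrib, ← Finset.mul_sum, ← Finset.mul_sum]
    have hg : ∑ i ∈ Finset.range H, θ ^ i ≤ 1 / (1 - θ) := by
      rw [geom_sum_eq (ne_of_lt P.θ_lt), ← neg_sub (1 : ℝ) (θ ^ H), ← neg_sub (1 : ℝ) θ, neg_div_neg_eq]
      apply div_le_div_of_nonneg_right _ hθ.le
      have := pow_nonneg P.θ_nonneg H
      linarith
    have h1 := mul_le_mul_of_nonneg_left ih P.y_nonneg
    have h2 := mul_le_mul_of_nonneg_left hg P.b_nonneg
    have h3 : P.y * ((1 + P.b / (1 - θ)) / (1 - P.y)) + P.b * (1 / (1 - θ)) + 1 =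
        (1 + P.b / (1 - θ)) / (1 - P.y) := by
      field_simp
      ring
    linarith

theorem KK_sum2 (hy : P.y < 1) (M : ℕ) :
    ∑ i ∈ Finset.range M, P.KK (i / 2) ≤ 2 * ((1 + P.b / (1 - θ)) / (1 - P.y)) := by
  have h1 : ∀ H : ℕ, ∑ i ∈ Finset.range (2 * H), P.KK (i / 2) =
      2 * ∑ n ∈ Finset.range H, P.KK n := by
    intro H
    induction H with
    | zero => simp
    | succ H ih =>
      rw [show 2 * (H + 1) = 2 * H + 1 + 1 by ring, Finset.sum_range_succ,
        Finset.sum_range_succ, ih, Finset.sum_range_succ]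
      rw [show 2 * H / 2 = H by omega, show (2 * H + 1) / 2 = H by omega]
      ring
  calc _ ≤ ∑ i ∈ Finset.range (2 * M), P.KK (i / 2) := by
        apply Finset.sum_le_sum_of_subset_of_nonneg
        · intro i hi
          rw [Finset.mem_range] at hi ⊢
          omega
        · intro i _ _
          exact P.KK_nonneg _
    _ = _ := h1 M
    _ ≤ _ := by
        have := KK_sum P hy M
        linarith

/-- The bound for the average of `x ^ (number of missing elements)`. -/
theorem e_bound (hy : P.y < 1) {M : ℕ} (hM : 1 ≤ M) (c : Cfg) (h0 : ∀ b, c (0, b) = true) :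
    Ex (reg 1 (M - 1)) (fun c => x ^ cnt c M) c ≤
      1 + (x - 1) / 4 * (2 * ((1 + P.b / (1 - θ)) / (1 - P.y))) := by
  obtain ⟨n, rfl⟩ : ∃ n, M = n + 1 := ⟨M - 1, by omega⟩
  rw [Nat.add_sub_cancel]
  refine (e_sum P n c h0).trans ?_
  have h1 := KK_sum2 P hy n
  have h2 : 0 ≤ (x - 1) / 4 := by linarith [P.one_le]
  have := mul_le_mul_of_nonneg_left h1 h2
  linarith

end

/-- Potentials given by three vectors. -/
def Uof (x : ℝ) (u1 u2 : Bool → Bool → ℝ) : ℕ → Bool → Bool → ℝ
  | 0 => fun _ ρ => pwb x ρ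
  | 1 => u1
  | _ => u2

/-- A vector of four numbers. -/
def vec (a b c d : ℝ) : Bool → Bool → ℝ
  | true, true => a
  | true, false => b
  | false, true => c
  | false, false => d

/-- The potentials for the weight `2`. -/
noncomputable def pot2 : Pot 2 (95 / 100) where
  U := Uof 2 (vec 2.04 1.185 1.514 0.856) (vec 2.04 1.205 1.46 0.836)
  Ub := fun ρ => if ρ then 2.04 else 1.205
  u01 := 2
  one_le := by norm_num
  le_two := by norm_num
  θ_nonneg := by norm_num
  θ_lt := by norm_num
  U_nonneg := by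
    intro t β ρ
    match t with
    | 0 => exact pwb_nonneg (by norm_num) _
    | 1 => cases β <;> cases ρ <;> simp only [Uof, vec] <;> norm_num
    | t + 2 => cases β <;> cases ρ <;> simp only [Uof, vec] <;> norm_num
  U_zero := fun β ρ => le_rfl
  U_succ := by
    intro t β ρ
    match t with
    | 0 => cases β <;> cases ρ <;> simp only [Uof, vec, MM, pwb] <;> norm_num
    | 1 => cases β <;> cases ρ <;> simp only [Uof, vec, MM, pwb] <;> norm_num
    | t + 2 => cases β <;> cases ρ <;> simp only [Uof, vec, MM, pwb] <;> norm_num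
  U_le := by
    intro t ρ
    match t with
    | 0 => cases ρ <;> simp only [Uof, vec, MM, pwb] <;> norm_num
    | 1 => cases ρ <;> simp only [Uof, vec, MM, pwb] <;> norm_num
    | t + 2 => cases ρ <;> simp only [Uof, vec, MM, pwb] <;> norm_num
  U_le' := by
    intro t
    match t with
    | 0 => simp only [Uof, vec, MM, pwb]; norm_num
    | 1 => simp only [Uof, vec, MM, pwb]; norm_num
    | t + 2 => simp only [Uof, vec, MM, pwb]; norm_num

/-- The potentials for the weight `3 / 2`. -/
noncomputable def pot32 : Pot (3 / 2) (3 / 4) where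
  U := Uof (3 / 2) (vec 1.49 1.105 1.25 0.917) (vec 1.477 1.102 1.222 0.902)
  Ub := fun ρ => if ρ then 1.5 else 1.105
  u01 := 1.5
  one_le := by norm_num
  le_two := by norm_num
  θ_nonneg := by norm_num
  θ_lt := by norm_num
  U_nonneg := by
    intro t β ρ
    match t with
    | 0 => exact pwb_nonneg (by norm_num) _
    | 1 => cases β <;> cases ρ <;> simp only [Uof, vec] <;> norm_num
    | t + 2 => cases β <;> cases ρ <;> simp only [Uof, vec] <;> norm_num
  U_zero := fun β ρ => le_rfl
  U_succ := by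
    intro t β ρ
    match t with
    | 0 => cases β <;> cases ρ <;> simp only [Uof, vec, MM, pwb] <;> norm_num
    | 1 => cases β <;> cases ρ <;> simp only [Uof, vec, MM, pwb] <;> norm_num
    | t + 2 => cases β <;> cases ρ <;> simp only [Uof, vec, MM, pwb] <;> norm_num
  U_le := by
    intro t ρ
    match t with
    | 0 => cases ρ <;> simp only [Uof, vec, MM, pwb] <;> norm_num
    | 1 => cases ρ <;> simp only [Uof, vec, MM, pwb] <;> norm_num
    | t + 2 => cases ρ <;> simp only [Uof, vec, MM, pwb] <;> norm_num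
  U_le' := by
    intro t
    match t with
    | 0 => simp only [Uof, vec, MM, pwb]; norm_num
    | 1 => simp only [Uof, vec, MM, pwb]; norm_num
    | t + 2 => simp only [Uof, vec, MM, pwb]; norm_num

theorem e2_bound {M : ℕ} (hM : 1 ≤ M) (c : Cfg) (h0 : ∀ b, c (0, b) = true) :
    Ex (reg 1 (M - 1)) (fun c => (2 : ℝ) ^ cnt c M) c ≤ 20.81 := by
  have hy : pot2.y < 1 := by
    unfold Pot.y pot2; norm_num
  refine (e_bound pot2 hy hM c h0).trans ?_
  unfold Pot.y Pot.b pot2
  norm_num

theorem e32_bound {M : ℕ} (hM : 1 ≤ M) (c : Cfg) (h0 : ∀ b, c (0, b) = true) :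
    Ex (reg 1 (M - 1)) (fun c => (3 / 2 : ℝ) ^ cnt c M) c ≤ 2.221 := by
  have hy : pot32.y < 1 := by
    unfold Pot.y pot32; norm_num
  refine (e_bound pot32 hy hM c h0).trans ?_
  unfold Pot.y Pot.b pot32
  norm_num

end Pool.Agent.Helper29.Mstd
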