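import Pool.Agent.Helper29.Mstd.Chain
import Pool.Agent.Helper29.Mstd.Defs

set_option autoImplicit false
set_option linter.unusedSimpArgs false
set_option linter.unusedVariables false

/-!
# From subsets to sequences of bits
-/

open Filter Topology

namespace Pool.Agent.Helper29.Mstd

open Pool.Agent.Helper29.MissingDifferences

/-- The bits of a set. -/
def chi (S : Finset ℕ) (i : ℕ) : Bool := decide (i ∈ S)

theorem Ex_range (n : ℕ) (f : (ℕ → Bool) → ℝ) (s : ℕ → Bool) :
    Ex (List.range n) f s =
      (∑ S ∈ (Finset.range n).powerset, f (fun i => if i < n then chi S i else s i)) / 2 ^ n := by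
  induction n generalizing f with
  | zero => simp
  | succ n ih =>
    rw [List.range_succ, Ex_append, ih, Finset.range_add_one, Finset.sum_powerset_insert (by simp),
      ← Finset.sum_add_distrib]
    have key : ∀ S ∈ (Finset.range n).powerset,
        Ex [n] f (fun i => if i < n then chi S i else s i) =
          (f (fun i => if i < n + 1 then chi S i else s i) +
            f (fun i => if i < n + 1 then chi (insert n S) i else s i)) / 2 := by
      intro S hS
      rw [Finset.mem_powerset] at hS
      have hn : n ∉ S := fun h => by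
        have := hS h
        simp at this
      rw [Ex_cons_apply, Ex_nil]
      have e1 : Function.update (fun i => if i < n then chi S i else s i) n false =
          fun i => if i < n + 1 then chi S i else s i := by
        funext i
        rcases lt_trichotomy i n with h | h | h
        · rw [Function.update_of_ne h.ne, if_pos h, if_pos (by omega)]
        · subst h
          rw [Function.update_self, if_pos (by omega)]
          simp [chi, hn]
        · rw [Function.update_of_ne h.ne', if_neg (by omega), if_neg (by omega)]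
      have e2 : Function.update (fun i => if i < n then chi S i else s i) n true =
          fun i => if i < n + 1 then chi (insert n S) i else s i := by
        funext i
        rcases lt_trichotomy i n with h | h | h
        · rw [Function.update_of_ne h.ne, if_pos h, if_pos (by omega)]
          simp [chi, h.ne]
        · subst h
          rw [Function.update_self, if_pos (by omega)]
          simp [chi]
        · rw [Function.update_of_ne h.ne', if_neg (by omega), if_neg (by omega)]
      rw [e1, e2]
    rw [Finset.sum_congr rfl key, ← Finset.sum_div, pow_succ]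
    field_simp

theorem Pt_eq (n k : ℕ) :
    Pt n k = (∑ S ∈ (Finset.range n).powerset, fk n k (chi S)) / 2 ^ n := by
  unfold Pt
  rw [Ex_range]
  congr 1
  refine Finset.sum_congr rfl fun S _ => fk_dep n k _ _ fun i hi => ?_
  have : i < n := hi
  rw [if_pos this]

open Classical in
/-- The present positive differences. -/
noncomputable def pres (n : ℕ) (S : Finset ℕ) : Finset ℕ :=
  (Finset.Ico 1 n).filter fun d => ¬ DMiss (chi S) n d

theorem mem_pres {n : ℕ} {S : Finset ℕ} (hS : S ⊆ Finset.range n) {d : ℕ} :
    d ∈ pres n S ↔ 1 ≤ d ∧ ∃ x ∈ S, x + d ∈ S := by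
  classical
  unfold pres DMiss
  rw [Finset.mem_filter, Finset.mem_Ico]
  constructor
  · rintro ⟨⟨h1, h2⟩, h3⟩
    push Not at h3
    obtain ⟨x, hx, hx'⟩ := h3
    refine ⟨h1, x, ?_, ?_⟩
    · simpa [chi] using hx'.1
    · simpa [chi] using hx'.2
  · rintro ⟨h1, x, hx, hx'⟩
    have h2 := Finset.mem_range.1 (hS hx')
    refine ⟨⟨h1, by omega⟩, fun h => h x h2 ?_⟩
    simp [chi, hx, hx']

theorem card_pres {n : ℕ} (S : Finset ℕ) : (pres n S).card + mD (chi S) n = n - 1 := by
  classical
  unfold pres mD
  have := Finset.card_filter_add_card_filter_not (s := Finset.Ico 1 n) (DMiss (chi S) n)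
  rw [Nat.card_Ico] at this
  omega

theorem card_diffSet {n : ℕ} {S : Finset ℕ} (hS : S ⊆ Finset.range n) (hne : S.Nonempty) :
    (diffSet S).card = 2 * (pres n S).card + 1 := by
  classical
  have e : diffSet S = ((pres n S).image (fun d : ℕ => (d : ℤ)) ∪
      (pres n S).image (fun d : ℕ => -(d : ℤ))) ∪ {0} := by
    ext z
    unfold diffSet
    simp only [Finset.mem_image₂, Finset.mem_union, Finset.mem_image, Finset.mem_singleton,
      mem_pres hS]
    constructor
    · rintro ⟨x, hx, y, hy, rfl⟩
      rcases lt_trichotomy x y with h | h | h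
      · left; right
        refine ⟨y - x, ⟨by omega, x, hx, ?_⟩, by omega⟩
        rwa [show x + (y - x) = y by omega]
      · right; omega
      · left; left
        refine ⟨x - y, ⟨by omega, y, hy, ?_⟩, by omega⟩
        rwa [show y + (x - y) = x by omega]
    · rintro ((⟨d, ⟨h1, x, hx, hx'⟩, rfl⟩ | ⟨d, ⟨h1, x, hx, hx'⟩, rfl⟩) | rfl)
      · exact ⟨x + d, hx', x, hx, by push_cast; ring⟩
      · exact ⟨x, hx, x + d, hx', by push_cast; ring⟩
      · obtain ⟨x, hx⟩ := hne
        exact ⟨x, hx, x, hx, by ring⟩
  have hpos : ∀ d ∈ pres n S, 1 ≤ d := fun d hd => ((mem_pres hS).1 hd).1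
  rw [e, Finset.card_union_of_disjoint, Finset.card_union_of_disjoint,
    Finset.card_image_of_injective, Finset.card_image_of_injective, Finset.card_singleton]
  · ring
  · intro a b h
    simpa using h
  · intro a b h
    simpa using h
  · rw [Finset.disjoint_left]
    intro z hz hz'
    rw [Finset.mem_image] at hz hz'
    obtain ⟨a, ha, rfl⟩ := hz
    obtain ⟨b, hb, hb'⟩ := hz'
    have := hpos a ha
    have := hpos b hb
    omega
  · rw [Finset.disjoint_left]
    intro z hz hz'
    rw [Finset.mem_singleton] at hz'
    subst hz'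
    rw [Finset.mem_union, Finset.mem_image, Finset.mem_image] at hz
    rcases hz with ⟨a, ha, h⟩ | ⟨a, ha, h⟩
    · have := hpos a ha
      omega
    · have := hpos a ha
      omega

theorem missing_eq {n : ℕ} {S : Finset ℕ} (hS : S ⊆ Finset.range n) (hne : S.Nonempty) :
    missing n S = 2 * mD (chi S) n := by
  have h1 := card_diffSet hS hne
  have h2 := card_pres (n := n) S
  obtain ⟨x, hx⟩ := hne
  have := Finset.mem_range.1 (hS hx)
  unfold missing
  omega

theorem P_eq (n m : ℕ) :
    P n m = (∑ S ∈ (Finset.range n).powerset, if missing n S = m then (1 : ℝ) else 0) / 2 ^ n := by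
  unfold P
  rw [Finset.card_filter]
  push_cast
  rfl

theorem P_even (n k : ℕ) : |P n (2 * k) - Pt n k| ≤ 1 / 2 ^ n := by
  rw [P_eq, Pt_eq, ← sub_div, abs_div, abs_of_pos (by positivity : (0 : ℝ) < 2 ^ n)]
  apply div_le_div_of_nonneg_right _ (by positivity)
  rw [← Finset.sum_sub_distrib, ← Finset.sum_erase_add _ _ (Finset.empty_mem_powerset _),
    Finset.sum_eq_zero, zero_add]
  · unfold fk
    split_ifs <;> norm_num
  · intro S hS
    rw [Finset.mem_erase, Finset.mem_powerset] at hS
    rw [missing_eq hS.2 (Finset.nonempty_iff_ne_empty.2 hS.1)]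
    unfold fk
    by_cases h : mD (chi S) n = k
    · rw [if_pos h, if_pos (by omega), sub_self]
    · rw [if_neg h, if_neg (by omega), sub_self]

theorem P_odd (n k : ℕ) : |P n (2 * k + 1)| ≤ 1 / 2 ^ n := by
  rw [P_eq, abs_div, abs_of_pos (by positivity : (0 : ℝ) < 2 ^ n)]
  apply div_le_div_of_nonneg_right _ (by positivity)
  rw [← Finset.sum_erase_add _ _ (Finset.empty_mem_powerset _),
    Finset.sum_eq_zero, zero_add]
  · split_ifs <;> norm_num
  · intro S hS
    rw [Finset.mem_erase, Finset.mem_powerset] at hS
    rw [missing_eq hS.2 (Finset.nonempty_iff_ne_empty.2 hS.1), if_neg (by omega)]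

theorem half_pow : Tendsto (fun n : ℕ => 1 / (2 : ℝ) ^ n) atTop (𝓝 0) := by
  have := tendsto_pow_atTop_nhds_zero_of_lt_one (by norm_num : (0 : ℝ) ≤ 1 / 2) (by norm_num)
  refine this.congr fun n => ?_
  rw [div_pow, one_pow]

theorem P_even_tendsto (k : ℕ) : Tendsto (fun n => P n (2 * k)) atTop (𝓝 (qq k)) := by
  have h1 : Tendsto (fun n => P n (2 * k) - Pt n k) atTop (𝓝 0) :=
    squeeze_zero_norm (fun n => by rw [Real.norm_eq_abs]; exact P_even n k) half_pow
  have := h1.add (Pt_tendsto k)
  simpa using this

theorem P_odd_tendsto (k : ℕ) : Tendsto (fun n => P n (2 * k + 1)) atTop (𝓝 0) :=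
  squeeze_zero_norm (fun n => by rw [Real.norm_eq_abs]; exact P_odd n k) half_pow

/-- The limit distribution. -/
noncomputable def ell (k : ℕ) : ℝ := if k % 2 = 0 then qq (k / 2) else 0

theorem ell_tendsto (k : ℕ) : Tendsto (fun n => P n k) atTop (𝓝 (ell k)) := by
  unfold ell
  rcases Nat.even_or_odd' k with ⟨j, rfl | rfl⟩
  · rw [if_pos (by omega), show 2 * j / 2 = j by omega]
    exact P_even_tendsto j
  · rw [if_neg (by omega)]
    exact P_odd_tendsto j

theorem ell_even (k : ℕ) : ell (2 * k) = qq k := by
  unfold ell
  rw [if_pos (by omega), show 2 * k / 2 = k by omega]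

end Pool.Agent.Helper29.Mstd
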