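import Pool.Agent.Helper29.Mstd.Tree

set_option autoImplicit false
set_option linter.unusedSimpArgs false
set_option linter.unusedVariables false

/-!
# Linear functionals of the distribution, bounded by the tree search
-/

namespace Pool.Agent.Helper29.Mstd

/-- Look up in a list, with a default. -/
def look (l : List ℕ) (d n : ℕ) : ℕ :=
  List.rec (motive := fun _ => ℕ → ℕ) (fun _ => d) (fun a _ ih n => Nat.casesOn n a ih) l n

@[simp] theorem look_nil (d n : ℕ) : look [] d n = d := rfl
@[simp] theorem look_cons_zero (a : ℕ) (l : List ℕ) (d : ℕ) : look (a :: l) d 0 = a := rfl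
@[simp] theorem look_cons_succ (a : ℕ) (l : List ℕ) (d n : ℕ) :
    look (a :: l) d (n + 1) = look l d n := rfl

theorem look_of_le {l : List ℕ} {d n : ℕ} (h : l.length ≤ n) : look l d n = d := by
  induction l generalizing n with
  | nil => rfl
  | cons a l ih =>
    cases n with
    | zero => simp at h
    | succ n =>
      rw [look_cons_succ]
      exact ih (by simpa using h)

/-- The check of the slopes. -/
def slopesOK (l s o : List ℕ) (d : ℕ) : Prop :=
  s.length ≤ l.length ∧ ∀ N < l.length, (look o 0 N = 0 → look s 0 N = 0) ∧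
    ∀ t ≤ l.length - N, look l d (N + t) ≤ look l d N + look s 0 N * t

instance (l s o : List ℕ) (d : ℕ) : Decidable (slopesOK l s o d) := by
  unfold slopesOK; infer_instance

theorem slopesOK.hu {l s o : List ℕ} {d : ℕ} (h : slopesOK l s o d) (N t : ℕ) :
    look l d (N + t) ≤ look l d N + look s 0 N * t := by
  rcases Nat.lt_or_ge N l.length with hN | hN
  · have h1 := (h.2 N hN).2
    rcases Nat.lt_or_ge (l.length - N) t with ht | ht
    · have h2 := h1 (l.length - N) le_rfl
      rw [look_of_le (by omega)] at h2 ⊢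
      refine h2.trans ?_
      have := Nat.mul_le_mul_left (look s 0 N) ht.le
      omega
    · exact h1 t ht
  · rw [look_of_le (by omega), look_of_le hN]
    omega

theorem slopesOK.ho {l s o : List ℕ} {d : ℕ} (h : slopesOK l s o d) (N : ℕ)
    (hN : look o 0 N = 0) : look s 0 N = 0 := by
  rcases Nat.lt_or_ge N l.length with h1 | h1
  · exact (h.2 N h1).1 hN
  · exact look_of_le (h.1.trans h1)

/-- The reference configuration. -/
def c0 : Cfg := fun _ => true

theorem inv0 : Inv 0 1 1 1 [] (2 ^ 38) 0 c0 := by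
  have h1 : ∀ i, (1 : ℕ).testBit i = (decide (i ≤ 0) && true) := by
    intro i
    rcases Nat.eq_zero_or_pos i with rfl | hi
    · rfl
    · rw [decide_eq_false (by omega), Bool.false_and, Nat.testBit_one_eq_true_iff_self_eq_zero.not.mpr
        (by omega) |> Bool.eq_false_iff.mpr]
  refine ⟨h1, h1, ?_, rfl, ?_, ?_, fun _ => rfl⟩
  · intro m
    rw [Nat.testBit_one_eq_true_iff_self_eq_zero]
    constructor
    · rintro rfl
      exact ⟨0, le_rfl, 0, le_rfl, rfl, rfl, rfl⟩
    · rintro ⟨i, hi, j, hj, hij, _⟩
      omega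
  · unfold wt psi c0
    norm_num
  · simp [cnt]

/-- The probability that exactly `i` elements of `[1, M)` are missing. -/
noncomputable def rM (M i : ℕ) : ℝ :=
  Ex (reg 1 (M - 1)) (fun c => if cnt c M = i then (1 : ℝ) else 0) c0

theorem rM_nonneg (M i : ℕ) : 0 ≤ rM M i :=
  Ex_nonneg fun c' => by split_ifs <;> norm_num

theorem V_look (l : List ℕ) (d M : ℕ) :
    V (look l d) M 0 c0 = d + ∑ i ∈ Finset.range l.length, ((look l d i : ℝ) - d) * rM M i := by
  unfold V rM
  have e : (fun c : Cfg => (look l d (cnt c M) : ℝ)) = fun c => (d : ℝ) +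
      ∑ i ∈ Finset.range l.length, ((look l d i : ℝ) - d) * (if cnt c M = i then (1 : ℝ) else 0) := by
    funext c
    rcases Nat.lt_or_ge (cnt c M) l.length with h | h
    · rw [Finset.sum_eq_single (cnt c M)]
      · simp
      · intro j _ hj
        rw [if_neg hj.symm, mul_zero]
      · intro h'
        exact absurd (Finset.mem_range.2 h) h'
    · rw [look_of_le h, Finset.sum_eq_zero, add_zero]
      intro j hj
      rw [Finset.mem_range] at hj
      rw [if_neg (by omega), mul_zero]
  rw [e, Ex_add, Ex_const, Ex_sum]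
  rw [Nat.sub_zero, Nat.zero_add]
  congr 1
  exact Finset.sum_congr rfl fun i _ => Ex_const_mul _ _ _ _

/-- The lower bound for a linear functional. -/
theorem functional_bound {l s o : List ℕ} {d thr D val : ℕ} (h : slopesOK l s o d)
    (hgo : Nat.ble (go (look l d) (look s 0) (look o 0) thr D 0 1 1 1 [] 274877906944 0) val = true)
    {M : ℕ} (hM : D + 1 ≤ M) :
    (d : ℝ) - val / (2 ^ 40 * 4 ^ D) ≤
      ∑ i ∈ Finset.range l.length, ((d : ℝ) - look l d i) * rM M i := by
  have h1 := go_spec h.hu h.ho thr D (inv0) (M := M) (by omega)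
  rw [V_look] at h1
  have h2 : go (look l d) (look s 0) (look o 0) thr D 0 1 1 1 [] (2 ^ 38) 0 ≤ val := by
    have e : (2 : ℕ) ^ 38 = 274877906944 := by norm_num
    rw [e]
    exact Nat.le_of_ble_eq_true hgo
  have h3 : ((go (look l d) (look s 0) (look o 0) thr D 0 1 1 1 [] (2 ^ 38) 0 : ℕ) : ℝ) ≤ val := by
    exact_mod_cast h2
  have h4 := h1.trans h3
  have hpos : (0 : ℝ) < 2 ^ 40 * 4 ^ D := by positivity
  rw [← le_div_iff₀ hpos] at h4
  have h5 : ∑ i ∈ Finset.range l.length, ((d : ℝ) - look l d i) * rM M i =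
      - ∑ i ∈ Finset.range l.length, ((look l d i : ℝ) - d) * rM M i := by
    rw [← Finset.sum_neg_distrib]
    exact Finset.sum_congr rfl fun i _ => by ring
  rw [h5]
  linarith

end Pool.Agent.Helper29.Mstd
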