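import Pool.Agent.Helper29.Mstd.Model

set_option autoImplicit false

/-!
# The lag argument

Upper bounds for averages of `x ^ (number of missing elements)`.
-/

namespace Pool.Agent.Helper29.Mstd

/-- `x` if `b`, else `1`. -/
def pwb (x : ℝ) (b : Bool) : ℝ := if b then x else 1

/-- neither set contains `i` -/
def zz (c : Cfg) (i : ℕ) : Bool := !c (i, false) && !c (i, true)

/-- compatibility of the bits `a, b` at `j` and `a', b'` at `m - j` when `m` is missing -/
def chb (a b a' b' : Bool) : Bool := !(a && b') && !(b && a')

/-- The weight function: `m` is missing, and each missing position strictly between `a` and `b`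
gets weight `x`. -/
noncomputable def J (x : ℝ) (m a b : ℕ) (c : Cfg) : ℝ :=
  if Miss c m then ∏ i ∈ Finset.Ioo a b, (if Miss c i then x else 1) else 0

section facts

variable {c : Cfg}

theorem Miss.zz (h0 : ∀ b, c (0, b) = true) {i : ℕ} (h : Miss c i) : zz c i = true := by
  have h1 := h 0 (Nat.zero_le _)
  have h2 := h i le_rfl
  simp only [h0, Nat.sub_zero, Nat.sub_self, true_and, and_true, Bool.not_eq_true] at h1 h2
  simp [Mstd.zz, h1, h2]

theorem Miss.lag {i g : ℕ} {τ : Bool} (h : Miss c i) (hg : g ≤ i) (hc : c (g, !τ) = true) :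
    c (i - g, τ) = false := by
  cases τ
  · have := h (i - g) (Nat.sub_le _ _)
    rw [Nat.sub_sub_self hg] at this
    simp only [Bool.not_false] at hc
    simpa [hc] using this
  · have := h g hg
    simp only [Bool.not_true] at hc
    simpa [hc] using this

theorem Miss.chb {m j : ℕ} (h : Miss c m) (hj : j ≤ m) :
    chb (c (j, false)) (c (j, true)) (c (m - j, false)) (c (m - j, true)) = true := by
  have h1 := h j hj
  have h2 := h (m - j) (Nat.sub_le _ _)
  rw [Nat.sub_sub_self hj] at h2
  unfold Mstd.chb
  revert h1 h2
  cases c (j, false) <;> cases c (j, true) <;> cases c (m - j, false) <;>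
    cases c (m - j, true) <;> simp

end facts

theorem pwb_pos {x : ℝ} (hx : 1 ≤ x) (b : Bool) : 0 < pwb x b := by
  unfold pwb; split_ifs <;> linarith

theorem pwb_nonneg {x : ℝ} (hx : 1 ≤ x) (b : Bool) : 0 ≤ pwb x b := (pwb_pos hx b).le

theorem one_le_pwb {x : ℝ} (hx : 1 ≤ x) (b : Bool) : 1 ≤ pwb x b := by
  unfold pwb; split_ifs <;> linarith

theorem ite_miss_le {x : ℝ} (hx : 1 ≤ x) {c : Cfg} {i : ℕ} {b : Bool} (h : Miss c i → b = true) :
    (if Miss c i then x else 1) ≤ pwb x b := by
  by_cases hm : Miss c i
  · rw [if_pos hm, h hm]; simp [pwb]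
  · rw [if_neg hm]; exact one_le_pwb hx b

theorem ite_miss_nonneg {x : ℝ} (hx : 1 ≤ x) {c : Cfg} {i : ℕ} :
    0 ≤ (if Miss c i then x else 1) := by
  split_ifs <;> linarith

theorem J_nonneg {x : ℝ} (hx : 1 ≤ x) (m a b : ℕ) (c : Cfg) : 0 ≤ J x m a b c := by
  unfold J
  split_ifs
  · exact Finset.prod_nonneg fun i _ => ite_miss_nonneg hx
  · exact le_rfl

theorem J_left (x : ℝ) (m a b : ℕ) (c : Cfg) (h : a + 1 < b) :
    J x m a b c = (if Miss c (a + 1) then x else 1) * J x m (a + 1) b c := by
  unfold J
  have : Finset.Ioo a b = insert (a + 1) (Finset.Ioo (a + 1) b) := by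
    ext i; simp only [Finset.mem_Ioo, Finset.mem_insert]; omega
  rw [this, Finset.prod_insert (by simp)]
  split_ifs <;> simp

theorem J_right (x : ℝ) (m a b : ℕ) (c : Cfg) (h : a < b) :
    J x m a (b + 1) c = (if Miss c b then x else 1) * J x m a b c := by
  unfold J
  have : Finset.Ioo a (b + 1) = insert b (Finset.Ioo a b) := by
    ext i; simp only [Finset.mem_Ioo, Finset.mem_insert]; omega
  rw [this, Finset.prod_insert (by simp)]
  split_ifs <;> simp

/-- Terminal bound. -/
theorem base_bound {x : ℝ} (hx1 : 1 ≤ x) (hx2 : x ≤ 2) {m h : ℕ}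
    (hm : m = 2 * h + 1 ∨ m = 2 * h + 2) {g : ℕ} (hg : g ≤ h) (c : Cfg)
    (h0 : ∀ b, c (0, b) = true) :
    Ex (reg (h + 1) (m - 1 - 2 * h)) (J x m h (m + g - h)) c ≤
      ∏ i ∈ Finset.Ioc (h - g) h, pwb x (zz c (m - i)) := by
  have refl : ∀ f : ℕ → ℝ, ∏ i ∈ Finset.Ioo (m - h - 1) (m + g - h), f i =
      ∏ k ∈ Finset.Ioc (h - g) h, f (m - k) := by
    intro f
    refine Finset.prod_nbij' (fun i => m - i) (fun k => m - k) ?_ ?_ ?_ ?_ ?_
    · intro i hi; simp only [Finset.mem_Ioo, Finset.mem_Ioc] at hi ⊢; omega
    · intro i hi; simp only [Finset.mem_Ioo, Finset.mem_Ioc] at hi ⊢; omega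
    · intro i hi; simp only [Finset.mem_Ioo] at hi ⊢; omega
    · intro i hi; simp only [Finset.mem_Ioc] at hi ⊢; omega
    · intro i hi; simp only [Finset.mem_Ioo] at hi; congr 1; omega
  have key : ∀ c' : Cfg, (∀ b, c' (0, b) = true) →
      ∏ i ∈ Finset.Ioo (m - h - 1) (m + g - h), (if Miss c' i then x else 1) ≤
      ∏ i ∈ Finset.Ioc (h - g) h, pwb x (zz c' (m - i)) := by
    intro c' h0'
    rw [refl]
    exact Finset.prod_le_prod (fun i _ => ite_miss_nonneg hx1)
      fun i _ => ite_miss_le hx1 fun hmi => hmi.zz h0'
  rcases hm with hm | hm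
  · have e : m - 1 - 2 * h = 0 := by omega
    rw [e, reg_zero, Ex_nil]
    unfold J
    split_ifs with hM
    · have := key c h0
      rwa [show m - h - 1 = h by omega] at this
    · exact Finset.prod_nonneg fun i _ => pwb_nonneg hx1 _
  · have e : m - 1 - 2 * h = 1 := by omega
    rw [e, reg_succ, reg_zero]
    set P := ∏ i ∈ Finset.Ioc (h - g) h, pwb x (zz c (m - i)) with hP
    have hP0 : 0 ≤ P := Finset.prod_nonneg fun i _ => pwb_nonneg hx1 _
    have step : ∀ c' : Cfg, Agree [(h + 1, false), (h + 1, true)] c c' →
        J x m h (m + g - h) c' ≤ P * ((if chb (c' (h + 1, false)) (c' (h + 1, true))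
          (c' (h + 1, false)) (c' (h + 1, true)) then 1 else 0) * pwb x (zz c' (h + 1))) := by
      intro c' hc'
      have h0' : ∀ b, c' (0, b) = true := by
        intro b
        rw [hc' _ (by simp), h0]
      have hzz : ∀ i ∈ Finset.Ioc (h - g) h, zz c' (m - i) = zz c (m - i) := by
        intro i hi
        rw [Finset.mem_Ioc] at hi
        unfold zz
        rw [hc' _ (by simp; omega), hc' _ (by simp; omega)]
      unfold J
      split_ifs with hM hch
      · have hsplit : Finset.Ioo h (m + g - h) =
            insert (h + 1) (Finset.Ioo (m - h - 1) (m + g - h)) := by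
          ext i; simp only [Finset.mem_Ioo, Finset.mem_insert]; omega
        rw [hsplit, Finset.prod_insert (by simp; omega), one_mul, mul_comm P]
        have h1 : (if Miss c' (h + 1) then x else 1) ≤ pwb x (zz c' (h + 1)) :=
          ite_miss_le hx1 fun hmi => hmi.zz h0'
        have h2 := key c' h0'
        have h3 : ∏ i ∈ Finset.Ioc (h - g) h, pwb x (zz c' (m - i)) = P :=
          Finset.prod_congr rfl fun i hi => by rw [hzz i hi]
        rw [h3] at h2
        exact mul_le_mul h1 h2 (Finset.prod_nonneg fun i _ => ite_miss_nonneg hx1)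
          (pwb_nonneg hx1 _)
      · exfalso
        apply hch
        have := hM.chb (j := h + 1) (by omega)
        rwa [show m - (h + 1) = h + 1 by omega] at this
      · have : 0 ≤ pwb x (zz c' (h + 1)) := pwb_nonneg hx1 _
        positivity
      · simp
    refine (Ex_mono step).trans ?_
    rw [Ex_const_mul, Ex_two]
    simp only [set2_false, set2_true, zz, chb, pwb]
    norm_num
    nlinarith

/-- The transfer operator. -/
def MM (x : ℝ) (v : Bool → Bool → ℝ) (β ρ : Bool) : ℝ :=
  pwb x β * pwb x ρ * (v true true + v true false) + pwb x β * 2 * v true false +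
    pwb x ρ * (v true true + v true false) + 2 * pwb x ρ * v false true + v false false

theorem blk_avg (c : Cfg) {j p : ℕ} (hjp : j ≠ p) (x : ℝ) (τ β ρ : Bool)
    (v : Bool → Bool → ℝ) :
    Ex (blk j p) (fun c' => (if chb (c' (j, false)) (c' (j, true)) (c' (p, false))
        (c' (p, true)) then 1 else 0) * pwb x (zz c' j && β) * pwb x (ρ && !c' (p, τ)) *
        v (!c' (j, τ)) (zz c' p)) c = MM x v β ρ / 16 := by
  have hne : ∀ (d : Cfg) (a b b' : Bool), set2 d p a b (j, b') = d (j, b') :=
    fun d a b b' => set2_ne d hjp a b b'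
  rw [Ex_blk, Ex_two]
  simp only [Ex_two, zz, hne, set2_false, set2_true]
  unfold MM chb pwb
  cases τ <;> cases β <;> cases ρ <;>
  · simp only [set2_false, set2_true, Bool.not_false, Bool.not_true, Bool.and_true,
      Bool.and_false, if_true, if_false, Bool.false_eq_true]
    ring

/-- A family of potentials for the weight `x` and the rate `θ`. -/
structure Pot (x θ : ℝ) where
  /-- the potentials -/
  U : ℕ → Bool → Bool → ℝ
  /-- a bound for `U t true` -/
  Ub : Bool → ℝ
  /-- a bound for `U t false true` -/
  u01 : ℝ
  one_le : 1 ≤ x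
  le_two : x ≤ 2
  θ_nonneg : 0 ≤ θ
  θ_lt : θ < 1
  U_nonneg : ∀ t β ρ, 0 ≤ U t β ρ
  U_zero : ∀ β ρ, pwb x ρ ≤ U 0 β ρ
  U_succ : ∀ t β ρ, MM x (U t) β ρ ≤ 16 * θ * U (t + 1) β ρ
  U_le : ∀ t ρ, U t true ρ ≤ Ub ρ
  U_le' : ∀ t, U t false true ≤ u01

section lag

variable {x θ : ℝ} (P : Pot x θ)
include P

theorem lag_bound {m h : ℕ} (hm : m = 2 * h + 1 ∨ m = 2 * h + 2) {g : ℕ} (hg : 1 ≤ g)
    (τ : Bool) (k : ℕ) : ∀ j : ℕ, g ≤ j → j + k = h → ∀ c : Cfg, (∀ b, c (0, b) = true) →
      c (g, !τ) = true →
      Ex (reg (j + 1) (m - 1 - 2 * j)) (J x m j (m + g - j)) c ≤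
        θ ^ k * ∏ i ∈ Finset.Ioc (j - g) j, P.U ((h - i) / g) (!c (i, τ)) (zz c (m - i)) := by
  induction k with
  | zero =>
    intro j hgj hj c h0 _
    obtain rfl : j = h := by omega
    rw [pow_zero, one_mul]
    refine (base_bound P.one_le P.le_two hm hgj c h0).trans ?_
    refine Finset.prod_le_prod (fun i _ => pwb_nonneg P.one_le _) fun i hi => ?_
    rw [Finset.mem_Ioc] at hi
    rw [Nat.div_eq_of_lt (by omega)]
    exact P.U_zero _ _
  | succ k ih =>
    intro j hgj hj c h0 hcg
    have hlen : m - 1 - 2 * j = (m - 1 - 2 * (j + 1)) + 2 := by omega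
    rw [hlen, Ex_reg_block]
    have hp : j + 1 + (m - 1 - 2 * (j + 1)) + 1 = m - (j + 1) := by omega
    rw [hp]
    set p := m - (j + 1) with hpdef
    set len := m - 1 - 2 * (j + 1) with hlendef
    -- the part of the product not involving block `j+1`
    set Q := ∏ i ∈ Finset.Ioc (j + 1 - g) j, P.U ((h - i) / g) (!c (i, τ)) (zz c (m - i)) with hQ
    have hQ0 : 0 ≤ Q := Finset.prod_nonneg fun i _ => P.U_nonneg _ _ _
    set β := !c (j + 1 - g, τ) with hβ
    set ρ := zz c (m - (j + 1 - g)) with hρ
    set t := (h - (j + 1)) / g with ht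
    have step : ∀ c' : Cfg, Agree (blk (j + 1) p) c c' →
        Ex (reg (j + 1 + 1) len) (J x m j (m + g - j)) c' ≤
          (θ ^ k * Q) * ((if chb (c' (j + 1, false)) (c' (j + 1, true)) (c' (p, false))
            (c' (p, true)) then 1 else 0) * pwb x (zz c' (j + 1) && β) *
            pwb x (ρ && !c' (p, τ)) * P.U t (!c' (j + 1, τ)) (zz c' p)) := by
      intro c' hc'
      have hc'' : ∀ i b, i ≠ j + 1 → i ≠ p → c' (i, b) = c (i, b) := by
        intro i b h1 h2
        apply hc'
        simp [blk, h1, h2]
      have h0' : ∀ b, c' (0, b) = true := by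
        intro b; rw [hc'' 0 b (by omega) (by omega), h0]
      have hcg' : c' (g, !τ) = true := by
        rw [hc'' g _ (by omega) (by omega), hcg]
      -- peel the two factors
      have hpeel : ∀ d : Cfg, Agree (reg (j + 1 + 1) len) c' d → J x m j (m + g - j) d ≤
          ((if chb (c' (j + 1, false)) (c' (j + 1, true)) (c' (p, false))
            (c' (p, true)) then 1 else 0) * pwb x (zz c' (j + 1) && β) *
            pwb x (ρ && !c' (p, τ))) * J x m (j + 1) (m + g - (j + 1)) d := by
        intro d hd
        have hd' : ∀ i b, (i < j + 2 ∨ p ≤ i) → d (i, b) = c' (i, b) := by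
          intro i b hi
          apply hd
          rw [mem_reg]
          omega
        have hd0 : ∀ b, d (0, b) = true := by
          intro b; rw [hd' 0 b (by omega), h0']
        have hdg : d (g, !τ) = true := by
          rw [hd' g _ (by omega), hcg']
        by_cases hM : Miss d m
        swap
        · have e1 : J x m j (m + g - j) d = 0 := by unfold J; rw [if_neg hM]
          have e2 : J x m (j + 1) (m + g - (j + 1)) d = 0 := by unfold J; rw [if_neg hM]
          rw [e1, e2, mul_zero]
        have hch := hM.chb (j := j + 1) (by omega)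
        rw [hd' (j + 1) false (by omega), hd' (j + 1) true (by omega),
          hd' (m - (j + 1)) false (by omega), hd' (m - (j + 1)) true (by omega), ← hpdef] at hch
        rw [if_pos hch, one_mul]
        have e1 : m + g - j = (m + g - (j + 1)) + 1 := by omega
        rw [e1, J_right x m j _ d (by omega), J_left x m j _ d (by omega), ← mul_assoc]
        apply mul_le_mul_of_nonneg_right _ (J_nonneg P.one_le _ _ _ _)
        rw [mul_comm]
        apply mul_le_mul _ _ (ite_miss_nonneg P.one_le) (pwb_nonneg P.one_le _)
        · apply ite_miss_le P.one_le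
          intro hmi
          have h1 := hmi.zz hd0
          have h2 := hmi.lag (g := g) (τ := τ) (by omega) hdg
          rw [hd' _ _ (by omega), hc'' _ _ (by omega) (by omega)] at h2
          have h3 : zz c' (j + 1) = true := by
            unfold zz at h1 ⊢
            rwa [hd' _ _ (by omega), hd' _ _ (by omega)] at h1
          rw [h3, hβ, h2]; rfl
        · apply ite_miss_le P.one_le
          intro hmi
          have h1 := hmi.zz hd0
          have h2 := hmi.lag (g := g) (τ := τ) (by omega) hdg
          rw [show m + g - (j + 1) - g = p by omega, hd' _ _ (by omega)] at h2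
          have h3 : ρ = true := by
            rw [hρ, show m - (j + 1 - g) = m + g - (j + 1) by omega]
            unfold zz at h1 ⊢
            rwa [hd' _ _ (by omega), hd' _ _ (by omega), hc'' _ _ (by omega) (by omega),
              hc'' _ _ (by omega) (by omega)] at h1
          rw [h3, h2]; rfl
      have hW0 : 0 ≤ ((if chb (c' (j + 1, false)) (c' (j + 1, true)) (c' (p, false))
            (c' (p, true)) then (1 : ℝ) else 0) * pwb x (zz c' (j + 1) && β) *
            pwb x (ρ && !c' (p, τ))) := by
        apply mul_nonneg (mul_nonneg _ (pwb_nonneg P.one_le _)) (pwb_nonneg P.one_le _)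
        split_ifs <;> norm_num
      refine (Ex_mono hpeel).trans ?_
      rw [Ex_const_mul]
      have hih := ih (j + 1) (by omega) (by omega) c' h0' hcg'
      refine (mul_le_mul_of_nonneg_left hih hW0).trans (le_of_eq ?_)
      have hsplit : Finset.Ioc (j + 1 - g) (j + 1) =
          insert (j + 1) (Finset.Ioc (j + 1 - g) j) := by
        ext i; simp only [Finset.mem_Ioc, Finset.mem_insert]; omega
      have hQ' : ∏ i ∈ Finset.Ioc (j + 1 - g) j,
          P.U ((h - i) / g) (!c' (i, τ)) (zz c' (m - i)) = Q := by
        refine Finset.prod_congr rfl fun i hi => ?_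
        rw [Finset.mem_Ioc] at hi
        unfold zz
        rw [hc'' i _ (by omega) (by omega), hc'' (m - i) _ (by omega) (by omega),
          hc'' (m - i) _ (by omega) (by omega)]
      rw [hsplit, Finset.prod_insert (by simp), hQ']
      ring
    refine (Ex_mono step).trans ?_
    rw [Ex_const_mul, blk_avg c (by omega) x τ β ρ (P.U t)]
    have hU := P.U_succ t β ρ
    have ht1 : (h - (j + 1 - g)) / g = t + 1 := by
      rw [show h - (j + 1 - g) = h - (j + 1) + g by omega, Nat.add_div_right _ (by omega)]
    have hsplit : Finset.Ioc (j - g) j = insert (j + 1 - g) (Finset.Ioc (j + 1 - g) j) := by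
      ext i; simp only [Finset.mem_Ioc, Finset.mem_insert]; omega
    rw [hsplit, Finset.prod_insert (by simp), ht1, ← hQ, ← hβ, ← hρ]
    have hθk : 0 ≤ θ ^ k * Q := mul_nonneg (pow_nonneg P.θ_nonneg k) hQ0
    have := mul_le_mul_of_nonneg_left hU hθk
    rw [pow_succ]
    nlinarith

/-- The constants of the run recursion. -/
noncomputable def Pot.y : ℝ := x * (P.Ub true + 3 * P.Ub false) / 16

/-- The constants of the run recursion. -/
noncomputable def Pot.b : ℝ := (2 * (P.Ub true + P.Ub false) + P.u01) / 16

/-- The bound of the run recursion. -/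
noncomputable def Pot.KK : ℕ → ℝ
  | 0 => 1
  | n + 1 => P.y * Pot.KK n + P.b * θ ^ n

theorem Pot.Ub_nonneg (ρ : Bool) : 0 ≤ P.Ub ρ := (P.U_nonneg 0 true ρ).trans (P.U_le 0 ρ)

theorem Pot.u01_nonneg : 0 ≤ P.u01 := (P.U_nonneg 0 false true).trans (P.U_le' 0)

theorem Pot.y_nonneg : 0 ≤ P.y := by
  have h1 := P.Ub_nonneg true
  have h2 := P.Ub_nonneg false
  have h3 := P.one_le
  unfold Pot.y
  positivity

theorem Pot.b_nonneg : 0 ≤ P.b := by
  have h1 := P.Ub_nonneg true
  have h2 := P.Ub_nonneg false
  have h3 := P.u01_nonneg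
  unfold Pot.b
  positivity

theorem Pot.KK_nonneg (n : ℕ) : 0 ≤ P.KK n := by
  induction n with
  | zero => unfold Pot.KK; norm_num
  | succ n ih =>
    have h1 := P.y_nonneg
    have h2 := P.b_nonneg
    have h3 := P.θ_nonneg
    unfold Pot.KK
    positivity

theorem run_bound {m h : ℕ} (hm : m = 2 * h + 1 ∨ m = 2 * h + 2) (n : ℕ) :
    ∀ k : ℕ, k + n = h → ∀ c : Cfg, (∀ b, c (0, b) = true) →
      (∀ i, 1 ≤ i → i ≤ k → ∀ b, c (i, b) = false) →
      Ex (reg (k + 1) (m - 1 - 2 * k)) (J x m k m) c ≤
        P.KK n * ∏ i ∈ Finset.Ioc 0 k, P.Ub (zz c (m - i)) := by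
  induction n with
  | zero =>
    intro k hk c h0 _
    obtain rfl : k = h := by omega
    have hb := base_bound P.one_le P.le_two hm (le_refl k) c h0
    rw [Nat.add_sub_cancel, Nat.sub_self] at hb
    refine hb.trans ?_
    rw [Pot.KK, one_mul]
    exact Finset.prod_le_prod (fun i _ => pwb_nonneg P.one_le _) fun i _ =>
      (P.U_zero true _).trans (P.U_le 0 _)
  | succ n ih =>
    intro k hk c h0 hrun
    have hlen : m - 1 - 2 * k = (m - 1 - 2 * (k + 1)) + 2 := by omega
    rw [hlen, Ex_reg_block]
    have hp : k + 1 + (m - 1 - 2 * (k + 1)) + 1 = m - (k + 1) := by omega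
    rw [hp]
    set p := m - (k + 1) with hpdef
    set len := m - 1 - 2 * (k + 1) with hlendef
    set Q := ∏ i ∈ Finset.Ioc 0 k, P.Ub (zz c (m - i)) with hQ
    have hQ0 : 0 ≤ Q := Finset.prod_nonneg fun i _ => P.Ub_nonneg _
    have step : ∀ c' : Cfg, Agree (blk (k + 1) p) c c' →
        Ex (reg (k + 1 + 1) len) (J x m k m) c' ≤
          Q * (if zz c' (k + 1) then x * P.KK n * P.Ub (zz c' p) else
            if chb (c' (k + 1, false)) (c' (k + 1, true)) (c' (p, false)) (c' (p, true)) then
              θ ^ n * (if c' (k + 1, false) && c' (k + 1, true) then P.u01 else P.Ub (zz c' p))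
            else 0) := by
      intro c' hc'
      have hc'' : ∀ i b, i ≠ k + 1 → i ≠ p → c' (i, b) = c (i, b) := by
        intro i b h1 h2
        apply hc'
        simp [blk, h1, h2]
      have h0' : ∀ b, c' (0, b) = true := by
        intro b; rw [hc'' 0 b (by omega) (by omega), h0]
      have hQ' : ∏ i ∈ Finset.Ioc 0 k, P.Ub (zz c' (m - i)) = Q := by
        refine Finset.prod_congr rfl fun i hi => ?_
        rw [Finset.mem_Ioc] at hi
        unfold zz
        rw [hc'' (m - i) _ (by omega) (by omega), hc'' (m - i) _ (by omega) (by omega)]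
      have hsplit : Finset.Ioc 0 (k + 1) = insert (k + 1) (Finset.Ioc 0 k) := by
        ext i; simp only [Finset.mem_Ioc, Finset.mem_insert]; omega
      -- peel
      have hpeel : ∀ d : Cfg, Agree (reg (k + 1 + 1) len) c' d → J x m k m d ≤
          pwb x (zz c' (k + 1)) * J x m (k + 1) m d := by
        intro d hd
        have hd' : ∀ i b, (i < k + 2 ∨ p ≤ i) → d (i, b) = c' (i, b) := by
          intro i b hi
          apply hd
          rw [mem_reg]
          omega
        have hd0 : ∀ b, d (0, b) = true := by
          intro b; rw [hd' 0 b (by omega), h0']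
        rw [J_left x m k m d (by omega)]
        apply mul_le_mul_of_nonneg_right _ (J_nonneg P.one_le _ _ _ _)
        apply ite_miss_le P.one_le
        intro hmi
        have h1 := hmi.zz hd0
        unfold zz at h1 ⊢
        rwa [hd' _ _ (by omega), hd' _ _ (by omega)] at h1
      refine (Ex_mono hpeel).trans ?_
      rw [Ex_const_mul]
      by_cases hz : zz c' (k + 1) = true
      · rw [if_pos hz, hz]
        have hrun' : ∀ i, 1 ≤ i → i ≤ k + 1 → ∀ b, c' (i, b) = false := by
          intro i h1 h2 b
          rcases Nat.lt_or_ge i (k + 1) with h3 | h3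
          · rw [hc'' i b (by omega) (by omega)]
            exact hrun i h1 (by omega) b
          · obtain rfl : i = k + 1 := by omega
            unfold zz at hz
            rw [Bool.and_eq_true, Bool.not_eq_true', Bool.not_eq_true'] at hz
            cases b
            · exact hz.1
            · exact hz.2
        have := ih (k + 1) (by omega) c' h0' hrun'
        rw [hsplit, Finset.prod_insert (by simp), hQ'] at this
        have h2 := mul_le_mul_of_nonneg_left this (pwb_nonneg P.one_le true)
        refine h2.trans (le_of_eq ?_)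
        simp only [pwb, if_true]
        ring
      · rw [if_neg hz]
        rw [Bool.not_eq_true] at hz
        rw [hz]
        simp only [pwb, Bool.false_eq_true, if_false, one_mul]
        by_cases hch : chb (c' (k + 1, false)) (c' (k + 1, true)) (c' (p, false))
            (c' (p, true)) = true
        · rw [if_pos hch]
          -- choose the lag
          obtain ⟨τ, hτ, hτ'⟩ : ∃ τ : Bool, c' (k + 1, !τ) = true ∧
              ((c' (k + 1, false) && c' (k + 1, true)) = false → c' (k + 1, τ) = false) := by
            unfold zz at hz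
            by_cases h1 : c' (k + 1, false) = true
            · exact ⟨true, by simpa using h1, by simp [h1]⟩
            · rw [Bool.not_eq_true] at h1
              refine ⟨false, ?_, fun _ => h1⟩
              simpa [h1] using hz
          have hlag := lag_bound P hm (g := k + 1) (by omega) τ n (k + 1) le_rfl (by omega)
            c' h0' hτ
          rw [Nat.add_sub_cancel, Nat.sub_self] at hlag
          refine hlag.trans ?_
          rw [hsplit, Finset.prod_insert (by simp)]
          have hle : ∏ i ∈ Finset.Ioc 0 k, P.U ((h - i) / (k + 1)) (!c' (i, τ))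
              (zz c' (m - i)) ≤ Q := by
            rw [← hQ']
            refine Finset.prod_le_prod (fun i _ => P.U_nonneg _ _ _) fun i hi => ?_
            rw [Finset.mem_Ioc] at hi
            rw [hc'' i _ (by omega) (by omega), hrun i (by omega) (by omega)]
            exact P.U_le _ _
          have hU0 : P.U ((h - (k + 1)) / (k + 1)) (!c' (k + 1, τ)) (zz c' p) ≤
              (if (c' (k + 1, false) && c' (k + 1, true)) = true then P.u01
                else P.Ub (zz c' p)) := by
            split_ifs with hboth
            · have hz' : zz c' p = true := by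
                rw [Bool.and_eq_true] at hboth
                unfold chb at hch
                rw [hboth.1, hboth.2] at hch
                unfold zz
                simpa [and_comm] using hch
              have h1 : c' (k + 1, τ) = true := by
                rw [Bool.and_eq_true] at hboth
                cases τ
                · exact hboth.1
                · exact hboth.2
              rw [hz', h1]
              exact P.U_le' _
            · rw [hτ' (by simpa using hboth)]
              exact P.U_le _ _
          have hθ := pow_nonneg P.θ_nonneg n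
          calc _ ≤ θ ^ n * ((if (c' (k + 1, false) && c' (k + 1, true)) = true then P.u01
                else P.Ub (zz c' p)) * Q) := by
                apply mul_le_mul_of_nonneg_left _ hθ
                apply mul_le_mul hU0 hle (Finset.prod_nonneg fun i _ => P.U_nonneg _ _ _)
                exact (P.U_nonneg _ _ _).trans hU0
            _ = _ := by ring
        · rw [if_neg hch, mul_zero]
          refine Ex_le_const fun d hd => le_of_eq ?_
          unfold J
          rw [if_neg]
          intro hM
          apply hch
          have := hM.chb (j := k + 1) (by omega)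
          have hd' : ∀ i b, (i < k + 2 ∨ p ≤ i) → d (i, b) = c' (i, b) := by
            intro i b hi
            apply hd
            rw [mem_reg]
            omega
          rwa [hd' (k + 1) false (by omega), hd' (k + 1) true (by omega),
            hd' (m - (k + 1)) false (by omega), hd' (m - (k + 1)) true (by omega)] at this
    refine (Ex_mono step).trans ?_
    rw [Ex_const_mul]
    have hjp : k + 1 ≠ p := by omega
    have hne : ∀ (d : Cfg) (a b b' : Bool), set2 d p a b (k + 1, b') = d (k + 1, b') :=
      fun d a b b' => set2_ne d hjp a b b'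
    rw [Ex_blk, Ex_two]
    simp only [Ex_two, zz, hne, set2_false, set2_true, chb]
    rw [Pot.KK, Pot.y, Pot.b]
    simp only [Bool.not_false, Bool.not_true, Bool.and_true, Bool.and_false,
      if_true, if_false, Bool.false_eq_true]
    apply le_of_eq
    ring

end lag

end Pool.Agent.Helper29.Mstd
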