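import Pool.Agent.Helper29.Mstd.Functional

set_option autoImplicit false

/-! Kernel evaluations of the tree search. -/

namespace Pool.Agent.Helper29.Mstd

set_option maxRecDepth 100000 in
theorem goA : Nat.ble (go (look [0, 19, 23, 27, 27] 11) (look [19, 4, 4, 0, 0] 0)
    (look [27, 16, 16, 16, 16] 0) 553402322211286 12 0 1 1 1 [] 274877906944 0)
    202896273594589904896 = true := by
  decide +kernel

theorem okA : slopesOK [0, 19, 23, 27, 27] [19, 4, 4, 0, 0] [27, 16, 16, 16, 16] 11 := by decide

end Pool.Agent.Helper29.Mstd
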