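import Pool.Agent.Helper29.Mstd.Functional

set_option autoImplicit false

/-! Kernel evaluations of the tree search. -/

namespace Pool.Agent.Helper29.Mstd

set_option maxRecDepth 100000 in
theorem goB : Nat.ble (go (look [5, 4, 0] 4) (look [0, 0, 4] 0)
    (look [5, 4, 4] 0) 55340232221128 12 0 1 1 1 [] 274877906944 0)
    73750699111270580224 = true := by
  decide +kernel

theorem okB : slopesOK [5, 4, 0] [0, 0, 4] [5, 4, 4] 4 := by decide

end Pool.Agent.Helper29.Mstd
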