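import Pool.Agent.Helper29.Mstd.Functional

set_option autoImplicit false

/-! Kernel evaluations of the tree search. -/

namespace Pool.Agent.Helper29.Mstd

set_option maxRecDepth 100000 in
theorem goC2 : Nat.ble (go (look [0, 2, 12, 12] 4) (look [6, 10, 0, 0] 0)
    (look [12, 10, 8, 8] 0) 18446744073709552 12 0 1 1 1 [] 274877906944 0)
    64767673616098656256 = true := by
  decide +kernel

theorem okC2 : slopesOK [0, 2, 12, 12] [6, 10, 0, 0] [12, 10, 8, 8] 4 := by decide

set_option maxRecDepth 100000 in
theorem goC3 : Nat.ble (go (look [12, 2, 0, 0] 8) (look [0, 2, 4, 8] 0)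
    (look [12, 8, 8, 8] 0) 18446744073709552 12 0 1 1 1 [] 274877906944 0)
    135275272918211231744 = true := by
  decide +kernel

theorem okC3 : slopesOK [12, 2, 0, 0] [0, 2, 4, 8] [12, 8, 8, 8] 8 := by decide

set_option maxRecDepth 100000 in
theorem goK4 : Nat.ble (go (look [140, 99, 48, 0, 9] 222) (look [17, 31, 58, 111, 213] 0)
    (look [222, 222, 222, 222, 213] 0) 1228553155309056000 12 0 1 1 1 [] 274877906944 0)
    2179956844317061939200 = true := by
  decide +kernel

theorem okK4 : slopesOK [140, 99, 48, 0, 9] [17, 31, 58, 111, 213] [222, 222, 222, 222, 213] 222 := by decide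

set_option maxRecDepth 100000 in
theorem goK5 : Nat.ble (go (look [338, 280, 198, 95, 0, 18] 444) (look [18, 33, 62, 117, 222, 426] 0)
    (look [444, 444, 444, 444, 444, 426] 0) 2457106310618112000 12 0 1 1 1 [] 274877906944 0)
    5461424633169699667968 = true := by
  decide +kernel

theorem okK5 : slopesOK [338, 280, 198, 95, 0, 18] [18, 33, 62, 117, 222, 426] [444, 444, 444, 444, 444, 426] 444 := by decide

set_option maxRecDepth 100000 in
theorem goK6 : Nat.ble (go (look [754, 676, 560, 396, 189, 0, 35] 888) (look [20, 36, 66, 123, 233, 444, 853] 0)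
    (look [888, 888, 888, 888, 888, 888, 853] 0) 4914212621236224000 12 0 1 1 1 [] 274877906944 0)
    12690557719028546142208 = true := by
  decide +kernel

theorem okK6 : slopesOK [754, 676, 560, 396, 189, 0, 35] [20, 36, 66, 123, 233, 444, 853] [888, 888, 888, 888, 888, 888, 853] 888 := by decide

set_option maxRecDepth 100000 in
theorem goK7 : Nat.ble (go (look [1608, 1508, 1353, 1120, 792, 379, 0] 1777) (look [25, 45, 85, 165, 329, 699, 1777] 0)
    (look [1777, 1777, 1777, 1777, 1777, 1777, 1777] 0) 9833959265694560256 12 0 1 1 1 [] 274877906944 0)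
    28036961462548906901504 = true := by
  decide +kernel

theorem okK7 : slopesOK [1608, 1508, 1353, 1120, 792, 379, 0] [25, 45, 85, 165, 329, 699, 1777] [1777, 1777, 1777, 1777, 1777, 1777, 1777] 1777 := by decide

set_option maxRecDepth 100000 in
theorem goK8 : Nat.ble (go (look [2584, 2458, 2258, 1948, 1483, 826, 0] 2797) (look [31, 57, 108, 213, 438, 986, 2797] 0)
    (look [2797, 2797, 2797, 2797, 2797, 2797, 2797] 0) 15478662952249683968 12 0 1 1 1 [] 274877906944 0)
    45572023638185106997248 = true := by
  decide +kernel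

theorem okK8 : slopesOK [2584, 2458, 2258, 1948, 1483, 826, 0] [31, 57, 108, 213, 438, 986, 2797] [2797, 2797, 2797, 2797, 2797, 2797, 2797] 2797 := by decide

set_option maxRecDepth 100000 in
theorem goK9 : Nat.ble (go (look [3675, 3516, 3263, 2863, 2244, 1314, 0] 3942) (look [39, 71, 136, 270, 566, 1314, 3942] 0)
    (look [3942, 3942, 3942, 3942, 3942, 3942, 3942] 0) 21815119541568913408 12 0 1 1 1 [] 274877906944 0)
    65128784970963918782464 = true := by
  decide +kernel

theorem okK9 : slopesOK [3675, 3516, 3263, 2863, 2244, 1314, 0] [39, 71, 136, 270, 566, 1314, 3942] [3942, 3942, 3942, 3942, 3942, 3942, 3942] 3942 := by decide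

set_option maxRecDepth 100000 in
theorem goK10 : Nat.ble (go (look [101, 92, 76, 48, 0, 0, 0, 0, 0, 0, 0] 112) (look [1, 2, 4, 8, 16, 19, 23, 28, 38, 56, 112] 0)
    (look [112, 112, 112, 112, 112, 112, 112, 112, 112, 112, 112] 0) 619810600876640896 12 0 1 1 1 [] 274877906944 0)
    1669975274225626251264 = true := by
  decide +kernel

theorem okK10 : slopesOK [101, 92, 76, 48, 0, 0, 0, 0, 0, 0, 0] [1, 2, 4, 8, 16, 19, 23, 28, 38, 56, 112] [112, 112, 112, 112, 112, 112, 112, 112, 112, 112, 112] 112 := by decide

end Pool.Agent.Helper29.Mstd
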