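import Pool.Agent.Helper29.Mstd.Compare
import Pool.Agent.Helper29.Mstd.EBound
import Pool.Agent.Helper29.Mstd.NumA
import Pool.Agent.Helper29.Mstd.NumB
import Pool.Agent.Helper29.Mstd.NumC

set_option autoImplicit false
set_option linter.unusedSimpArgs false
set_option linter.unusedVariables false

/-!
# Limits and the chain of inequalities
-/

open Filter Topology

namespace Pool.Agent.Helper29.Mstd

theorem pow_tendsto : Tendsto (fun N : ℕ => 20 * (9 / 10 : ℝ) ^ N) atTop (𝓝 0) := by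
  have := (tendsto_pow_atTop_nhds_zero_of_lt_one (by norm_num : (0 : ℝ) ≤ 9 / 10)
    (by norm_num)).const_mul 20
  simpa using this

theorem exists_r (k : ℕ) : ∃ r : ℝ, Tendsto (fun M => rM M k) atTop (𝓝 r) ∧
    Tendsto (fun n => Rt n k) atTop (𝓝 r) := by
  have hc : CauchySeq (fun M => rM (M + 1) k) := by
    apply cauchySeq_of_le_tendsto_0 (fun N => 20 * (9 / 10 : ℝ) ^ N) _ pow_tendsto
    intro n m N hn hm
    have h1 := Rt_rM (n := 2 * max (n + 1) (m + 1)) (M := n + 1) (by omega) (by omega) k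
    have h2 := Rt_rM (n := 2 * max (n + 1) (m + 1)) (M := m + 1) (by omega) (by omega) k
    rw [Nat.add_sub_cancel] at h1 h2
    have h3 : (9 / 10 : ℝ) ^ n ≤ (9 / 10) ^ N :=
      pow_le_pow_of_le_one (by norm_num) (by norm_num) hn
    have h4 : (9 / 10 : ℝ) ^ m ≤ (9 / 10) ^ N :=
      pow_le_pow_of_le_one (by norm_num) (by norm_num) hm
    rw [Real.dist_eq, abs_le]
    rw [abs_le] at h1 h2
    constructor <;> linarith
  obtain ⟨r, hr⟩ := cauchySeq_tendsto_of_complete hc
  have hr' : Tendsto (fun M => rM M k) atTop (𝓝 r) := (tendsto_add_atTop_iff_nat 1).1 hr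
  refine ⟨r, hr', ?_⟩
  have h1 : Tendsto (fun n : ℕ => rM (n / 2) k) atTop (𝓝 r) :=
    hr'.comp (Nat.tendsto_div_const_atTop (by norm_num))
  have h2 : Tendsto (fun n : ℕ => Rt n k - rM (n / 2) k) atTop (𝓝 0) := by
    have hb : Tendsto (fun n : ℕ => 20 * (9 / 10 : ℝ) ^ (n / 2)) atTop (𝓝 0) :=
      pow_tendsto.comp (Nat.tendsto_div_const_atTop (by norm_num))
    apply squeeze_zero_norm' _ hb
    filter_upwards [eventually_ge_atTop 2] with n hn
    have h3 := Rt_rM (n := n) (M := n / 2) (by omega) (by omega) k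
    rw [Real.norm_eq_abs]
    refine h3.trans ?_
    have h4 : (9 / 10 : ℝ) ^ (n / 2) = (9 / 10) ^ (n / 2 - 1) * (9 / 10) := by
      rw [← pow_succ]; congr 1; omega
    rw [h4]
    have : (0 : ℝ) ≤ (9 / 10) ^ (n / 2 - 1) := by positivity
    linarith
  have := h1.add h2
  simpa using this

/-- The limiting distribution, conditioned on `0 ∈ A ∩ B`. -/
noncomputable def r (k : ℕ) : ℝ := Classical.choose (exists_r k)

theorem rM_tendsto (k : ℕ) : Tendsto (fun M => rM M k) atTop (𝓝 (r k)) :=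
  (Classical.choose_spec (exists_r k)).1

theorem Rt_tendsto (k : ℕ) : Tendsto (fun n => Rt n k) atTop (𝓝 (r k)) :=
  (Classical.choose_spec (exists_r k)).2

theorem r_nonneg (k : ℕ) : 0 ≤ r k :=
  ge_of_tendsto' (rM_tendsto k) fun M => rM_nonneg M k

/-- The limiting distribution, conditioned on `0 ∈ A`. -/
noncomputable def pp : ℕ → ℝ
  | 0 => r 0 / 2
  | k + 1 => (pp k + r (k + 1)) / 2

/-- The limiting distribution. -/
noncomputable def qq : ℕ → ℝ
  | 0 => pp 0 / 2
  | k + 1 => (qq k + pp (k + 1)) / 2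

theorem Vt_tendsto (k : ℕ) : Tendsto (fun n => Vt n k) atTop (𝓝 (pp k)) := by
  induction k with
  | zero =>
    rw [← tendsto_add_atTop_iff_nat 2]
    have h1 := (Rt_tendsto 0).comp (tendsto_add_atTop_nat 2)
    have h2 := h1.div_const 2
    refine h2.congr fun n => ?_
    rw [Vt_succ (by omega : 1 ≤ n + 1)]
    simp
  | succ k ih =>
    rw [← tendsto_add_atTop_iff_nat 2]
    have h1 := (Rt_tendsto (k + 1)).comp (tendsto_add_atTop_nat 2)
    have h2 := ih.comp (tendsto_add_atTop_nat 1)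
    have h3 := (h2.add h1).div_const 2
    refine h3.congr fun n => ?_
    rw [Vt_succ (by omega : 1 ≤ n + 1), if_neg (by omega)]
    rfl

theorem Pt_tendsto (k : ℕ) : Tendsto (fun n => Pt n k) atTop (𝓝 (qq k)) := by
  induction k with
  | zero =>
    rw [← tendsto_add_atTop_iff_nat 2]
    have h1 := (Vt_tendsto 0).comp (tendsto_add_atTop_nat 2)
    have h2 := h1.div_const 2
    refine h2.congr fun n => ?_
    rw [Pt_succ (by omega : 1 ≤ n + 1)]
    simp
  | succ k ih =>
    rw [← tendsto_add_atTop_iff_nat 2]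
    have h1 := (Vt_tendsto (k + 1)).comp (tendsto_add_atTop_nat 2)
    have h2 := ih.comp (tendsto_add_atTop_nat 1)
    have h3 := (h2.add h1).div_const 2
    refine h3.congr fun n => ?_
    rw [Pt_succ (by omega : 1 ≤ n + 1), if_neg (by omega)]
    rfl

/-! ### Bounds for `r` -/

theorem sum_le_ex {x : ℝ} (hx : 0 ≤ x) (K M : ℕ) :
    ∑ j ∈ Finset.range K, x ^ j * rM M j ≤ Ex (reg 1 (M - 1)) (fun c => x ^ cnt c M) c0 := by
  unfold rM
  simp only [← Ex_const_mul]
  rw [← Ex_sum]
  apply Ex_mono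
  intro c _
  rcases Nat.lt_or_ge (cnt c M) K with h | h
  · rw [Finset.sum_eq_single (cnt c M)]
    · simp
    · intro j _ hj
      rw [if_neg hj.symm, mul_zero]
    · intro h'
      exact absurd (Finset.mem_range.2 h) h'
  · rw [Finset.sum_eq_zero]
    · positivity
    · intro j hj
      rw [Finset.mem_range] at hj
      rw [if_neg (by omega), mul_zero]

theorem r_sum_two (K : ℕ) : ∑ j ∈ Finset.range K, (2 : ℝ) ^ j * r j ≤ 20.81 := by
  have h : Tendsto (fun M => ∑ j ∈ Finset.range K, (2 : ℝ) ^ j * rM M j) atTop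
      (𝓝 (∑ j ∈ Finset.range K, (2 : ℝ) ^ j * r j)) :=
    tendsto_finsetSum _ fun j _ => (rM_tendsto j).const_mul _
  apply le_of_tendsto h
  filter_upwards [eventually_ge_atTop 1] with M hM
  exact (sum_le_ex (by norm_num) K M).trans (e2_bound hM c0 fun _ => rfl)

theorem r_sum_three (K : ℕ) : ∑ j ∈ Finset.range K, (3 / 2 : ℝ) ^ j * r j ≤ 2.221 := by
  have h : Tendsto (fun M => ∑ j ∈ Finset.range K, (3 / 2 : ℝ) ^ j * rM M j) atTop
      (𝓝 (∑ j ∈ Finset.range K, (3 / 2 : ℝ) ^ j * r j)) :=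
    tendsto_finsetSum _ fun j _ => (rM_tendsto j).const_mul _
  apply le_of_tendsto h
  filter_upwards [eventually_ge_atTop 1] with M hM
  exact (sum_le_ex (by norm_num) K M).trans (e32_bound hM c0 fun _ => rfl)

theorem r_functional {l s o : List ℕ} {d thr D val : ℕ} (h : slopesOK l s o d)
    (hgo : Nat.ble (go (look l d) (look s 0) (look o 0) thr D 0 1 1 1 [] 274877906944 0) val = true) :
    (d : ℝ) - val / (2 ^ 40 * 4 ^ D) ≤
      ∑ i ∈ Finset.range l.length, ((d : ℝ) - look l d i) * r i := by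
  have ht : Tendsto (fun M => ∑ i ∈ Finset.range l.length, ((d : ℝ) - look l d i) * rM M i) atTop
      (𝓝 (∑ i ∈ Finset.range l.length, ((d : ℝ) - look l d i) * r i)) :=
    tendsto_finsetSum _ fun j _ => (rM_tendsto j).const_mul _
  apply ge_of_tendsto ht
  filter_upwards [eventually_ge_atTop (D + 1)] with M hM
  exact functional_bound h hgo hM

/-- The functional in recursive form. -/
noncomputable def lsum (d : ℕ) : List ℕ → (ℕ → ℝ) → ℝ
  | [], _ => 0
  | a :: l, f => ((d : ℝ) - a) * f 0 + lsum d l fun n => f (n + 1)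

theorem lsum_eq (d : ℕ) (l : List ℕ) (f : ℕ → ℝ) :
    ∑ i ∈ Finset.range l.length, ((d : ℝ) - look l d i) * f i = lsum d l f := by
  induction l generalizing f with
  | nil => rfl
  | cons a l ih =>
    rw [List.length_cons, Finset.sum_range_succ', lsum, ← ih]
    simp only [look_cons_succ, look_cons_zero]
    ring

theorem r_functional' {l s o : List ℕ} {d thr D val : ℕ} (h : slopesOK l s o d)
    (hgo : Nat.ble (go (look l d) (look s 0) (look o 0) thr D 0 1 1 1 [] 274877906944 0) val = true) :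
    (d : ℝ) - val / (2 ^ 40 * 4 ^ D) ≤ lsum d l r := by
  rw [← lsum_eq]
  exact r_functional h hgo

theorem fA : (0.0009 : ℝ) ≤ 11 * r 0 - 8 * r 1 - 12 * r 2 - 16 * r 3 - 16 * r 4 := by
  have h := r_functional' okA goA
  simp only [lsum] at h
  norm_num at h ⊢
  linarith

theorem fB : (0.001 : ℝ) ≤ 4 * r 2 - r 0 := by
  have h := r_functional' okB goB
  simp only [lsum] at h
  norm_num at h ⊢
  linarith

theorem fC2 : (0.4 : ℝ) ≤ 4 * r 0 + 2 * r 1 - 8 * r 2 - 8 * r 3 := by
  have h := r_functional' okC2 goC2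
  simp only [lsum] at h
  norm_num at h ⊢
  linarith

theorem fC3 : (0.6 : ℝ) ≤ -4 * r 0 + 6 * r 1 + 8 * r 2 + 8 * r 3 := by
  have h := r_functional' okC3 goC3
  simp only [lsum] at h
  norm_num at h ⊢
  linarith

theorem fK4 : (103.8 : ℝ) ≤ 82 * r 0 + 123 * r 1 + 174 * r 2 + 222 * r 3 + 213 * r 4 := by
  have h := r_functional' okK4 goK4
  simp only [lsum] at h
  norm_num at h ⊢
  linarith

theorem fK5 : (147.9 : ℝ) ≤ 106 * r 0 + 164 * r 1 + 246 * r 2 + 349 * r 3 + 444 * r 4
    + 426 * r 5 := by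
  have h := r_functional' okK5 goK5
  simp only [lsum] at h
  norm_num at h ⊢
  linarith

theorem fK6 : (200 : ℝ) ≤ 134 * r 0 + 212 * r 1 + 328 * r 2 + 492 * r 3 + 699 * r 4
    + 888 * r 5 + 853 * r 6 := by
  have h := r_functional' okK6 goK6
  simp only [lsum] at h
  norm_num at h ⊢
  linarith

theorem fK7 : (257 : ℝ) ≤ 169 * r 0 + 269 * r 1 + 424 * r 2 + 657 * r 3 + 985 * r 4
    + 1398 * r 5 + 1777 * r 6 := by
  have h := r_functional' okK7 goK7
  simp only [lsum] at h
  norm_num at h ⊢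
  linarith

theorem fK8 : (326 : ℝ) ≤ 213 * r 0 + 339 * r 1 + 539 * r 2 + 849 * r 3 + 1314 * r 4
    + 1971 * r 5 + 2797 * r 6 := by
  have h := r_functional' okK8 goK8
  simp only [lsum] at h
  norm_num at h ⊢
  linarith

theorem fK9 : (411 : ℝ) ≤ 267 * r 0 + 426 * r 1 + 679 * r 2 + 1079 * r 3 + 1698 * r 4
    + 2628 * r 5 + 3942 * r 6 := by
  have h := r_functional' okK9 goK9
  simp only [lsum] at h
  norm_num at h ⊢
  linarith

theorem fK10 : (21.4 : ℝ) ≤ 11 * r 0 + 20 * r 1 + 36 * r 2 + 64 * r 3 + 112 * r 4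
    + 112 * r 5 + 112 * r 6 + 112 * r 7 + 112 * r 8 + 112 * r 9 + 112 * r 10 := by
  have h := r_functional' okK10 goK10
  simp only [lsum] at h
  norm_num at h ⊢
  linarith

end Pool.Agent.Helper29.Mstd
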