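import Pool.Agent.Helper29.Mstd.Basic

set_option autoImplicit false

/-!
# Two random sets containing `0`

A configuration `c` codes two sets `A = {i : c (i, false)}` and `B = {i : c (i, true)}`.
-/

namespace Pool.Agent.Helper29.Mstd

/-- A configuration: `c (i, false)` says `i ∈ A`, `c (i, true)` says `i ∈ B`. -/
abbrev Cfg := ℕ × Bool → Bool

/-- `i` is missing from `A + B`. -/
def Miss (c : Cfg) (i : ℕ) : Prop := ∀ j ≤ i, ¬ (c (j, false) = true ∧ c (i - j, true) = true)

instance (c : Cfg) (i : ℕ) : Decidable (Miss c i) := by unfold Miss; infer_instance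

/-- The number of `i` with `1 ≤ i < M` missing from `A + B`. -/
def cnt (c : Cfg) (M : ℕ) : ℕ := ((Finset.Ico 1 M).filter (Miss c)).card

theorem miss_congr {c c' : Cfg} {i : ℕ} (h : ∀ j ≤ i, ∀ b, c (j, b) = c' (j, b)) :
    Miss c i ↔ Miss c' i := by
  unfold Miss
  constructor
  · intro H j hj
    rw [← h j hj, ← h (i - j) (Nat.sub_le _ _)]
    exact H j hj
  · intro H j hj
    rw [h j hj, h (i - j) (Nat.sub_le _ _)]
    exact H j hj

theorem cnt_congr {c c' : Cfg} {M : ℕ} (h : ∀ j < M, ∀ b, c (j, b) = c' (j, b)) :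
    cnt c M = cnt c' M := by
  unfold cnt
  congr 1
  apply Finset.filter_congr
  intro i hi
  rw [Finset.mem_Ico] at hi
  exact miss_congr fun j hj b => h j (lt_of_le_of_lt hj hi.2) b

theorem cnt_succ (c : Cfg) {M : ℕ} (hM : 1 ≤ M) :
    cnt c (M + 1) = cnt c M + (if Miss c M then 1 else 0) := by
  unfold cnt
  rw [← Finset.insert_Ico_right_eq_Ico_add_one hM,
    Finset.filter_insert]
  split_ifs with h
  · rw [Finset.card_insert_of_notMem]
    simp
  · simp

/-- The bits at positions `a, …, a + len - 1`. -/
def reg (a len : ℕ) : List (ℕ × Bool) :=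
  (List.range' a len).flatMap fun i => [(i, false), (i, true)]

theorem reg_zero (a : ℕ) : reg a 0 = [] := rfl

theorem reg_succ (a len : ℕ) :
    reg a (len + 1) = (a, false) :: (a, true) :: reg (a + 1) len := by
  simp [reg, List.range'_succ]

theorem reg_succ' (a len : ℕ) :
    reg a (len + 1) = reg a len ++ [(a + len, false), (a + len, true)] := by
  simp [reg, List.range'_concat]

theorem mem_reg {a len : ℕ} {x : ℕ × Bool} : x ∈ reg a len ↔ a ≤ x.1 ∧ x.1 < a + len := by
  simp only [reg, List.mem_flatMap, List.mem_range'_1]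
  constructor
  · rintro ⟨i, hi, hx⟩
    simp only [List.mem_cons, List.not_mem_nil, or_false] at hx
    rcases hx with rfl | rfl <;> exact hi
  · rintro h
    refine ⟨x.1, h, ?_⟩
    rcases x with ⟨i, b⟩
    cases b <;> simp

/-- A pair of positions. -/
def blk (j p : ℕ) : List (ℕ × Bool) := [(j, false), (j, true), (p, false), (p, true)]

theorem reg_perm (a len : ℕ) :
    (reg a (len + 2)).Perm (blk a (a + len + 1) ++ reg (a + 1) len) := by
  rw [show len + 2 = (len + 1) + 1 from rfl, reg_succ, reg_succ']
  unfold blk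
  have e : a + 1 + len = a + len + 1 := by ring
  rw [e]
  simp only [List.cons_append, List.nil_append]
  refine List.Perm.cons _ (List.Perm.cons _ ?_)
  exact List.perm_append_comm

theorem reg_perm' (a len : ℕ) :
    (reg a (len + 1)).Perm ([(a + len, false), (a + len, true)] ++ reg a len) := by
  rw [reg_succ']
  exact List.perm_append_comm

theorem Ex_reg_block (a len : ℕ) (f : Cfg → ℝ) :
    Ex (reg a (len + 2)) f = Ex (blk a (a + len + 1)) (Ex (reg (a + 1) len) f) := by
  rw [Ex_perm (reg_perm a len), Ex_append]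

/-- Set both bits at position `i`. -/
def set2 (c : Cfg) (i : ℕ) (a b : Bool) : Cfg :=
  Function.update (Function.update c (i, false) a) (i, true) b

@[simp] theorem set2_false (c : Cfg) (i : ℕ) (a b : Bool) : set2 c i a b (i, false) = a := by
  simp [set2]

@[simp] theorem set2_true (c : Cfg) (i : ℕ) (a b : Bool) : set2 c i a b (i, true) = b := by
  simp [set2]

theorem set2_ne (c : Cfg) {i j : ℕ} (h : j ≠ i) (a b b' : Bool) :
    set2 c i a b (j, b') = c (j, b') := by
  unfold set2
  rw [Function.update_of_ne, Function.update_of_ne] <;>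
  · intro e
    exact h (Prod.ext_iff.1 e).1

/-- Average over the two bits at position `i`. -/
theorem Ex_two (i : ℕ) (f : Cfg → ℝ) (c : Cfg) :
    Ex [(i, false), (i, true)] f c =
      (f (set2 c i false false) + f (set2 c i false true) + f (set2 c i true false)
        + f (set2 c i true true)) / 4 := by
  simp only [Ex_cons_apply, Ex_nil, set2]
  ring

theorem Ex_blk (j p : ℕ) (f : Cfg → ℝ) (c : Cfg) :
    Ex (blk j p) f c = Ex [(j, false), (j, true)] (Ex [(p, false), (p, true)] f) c := by
  have : blk j p = [(j, false), (j, true)] ++ [(p, false), (p, true)] := rfl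
  rw [this, Ex_append]

end Pool.Agent.Helper29.Mstd
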