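import Pool.Agent.Helper29.Mstd.Functional

set_option autoImplicit false
set_option linter.unusedSimpArgs false
set_option linter.unusedVariables false

/-!
# One random set, coded by a sequence of bits
-/

namespace Pool.Agent.Helper29.Mstd

/-- `d` is not a difference of two elements of `{x < n : s x}`. -/
def DMiss (s : ℕ → Bool) (n d : ℕ) : Prop := ∀ x, x + d < n → ¬ (s x = true ∧ s (x + d) = true)

open Classical in
/-- The number of missing positive differences. -/
noncomputable def mD (s : ℕ → Bool) (n : ℕ) : ℕ := ((Finset.Ico 1 n).filter (DMiss s n)).card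

theorem dmiss_congr {s s' : ℕ → Bool} {n d : ℕ} (h : ∀ i < n, s i = s' i) :
    DMiss s n d ↔ DMiss s' n d := by
  unfold DMiss
  constructor
  · intro H x hx
    rw [← h x (by omega), ← h (x + d) hx]
    exact H x hx
  · intro H x hx
    rw [h x (by omega), h (x + d) hx]
    exact H x hx

theorem mD_congr {s s' : ℕ → Bool} {n : ℕ} (h : ∀ i < n, s i = s' i) : mD s n = mD s' n := by
  classical
  unfold mD
  congr 1
  exact Finset.filter_congr fun d _ => dmiss_congr h

theorem mD_succ_of_false {s : ℕ → Bool} {n : ℕ} (hn : 1 ≤ n) (h : s n = false) :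
    mD s (n + 1) = mD s n + 1 := by
  classical
  unfold mD
  have e : (Finset.Ico 1 (n + 1)).filter (DMiss s (n + 1)) =
      insert n ((Finset.Ico 1 n).filter (DMiss s n)) := by
    ext d
    simp only [Finset.mem_filter, Finset.mem_Ico, Finset.mem_insert]
    constructor
    · rintro ⟨⟨h1, h2⟩, h3⟩
      rcases Nat.lt_or_ge d n with h4 | h4
      · right
        refine ⟨⟨h1, h4⟩, fun x hx => h3 x (by omega)⟩
      · left; omega
    · rintro (rfl | ⟨⟨h1, h2⟩, h3⟩)
      · refine ⟨⟨hn, by omega⟩, fun x hx hc => ?_⟩
        have : x = 0 := by omega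
        subst this
        rw [Nat.zero_add, h] at hc
        exact absurd hc.2 (by simp)
      · refine ⟨⟨h1, by omega⟩, fun x hx hc => ?_⟩
        rcases Nat.lt_or_ge (x + d) n with h4 | h4
        · exact h3 x h4 hc
        · have h5 : x + d = n := by omega
          rw [h5, h] at hc
          exact absurd hc.2 (by simp)
  rw [e, Finset.card_insert_of_notMem]
  simp

theorem mD_reflect (s : ℕ → Bool) (n : ℕ) : mD (fun i => s (n - i)) (n + 1) = mD s (n + 1) := by
  classical
  unfold mD
  congr 1
  apply Finset.filter_congr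
  intro d _
  unfold DMiss
  constructor
  · intro H x hx
    have := H (n - (x + d)) (by omega)
    dsimp only at this
    rw [show n - (n - (x + d)) = x + d by omega, show n - (n - (x + d) + d) = x by omega] at this
    rwa [and_comm]
  · intro H x hx
    have := H (n - (x + d)) (by omega)
    dsimp only
    rw [show n - (x + d) + d = n - x by omega] at this
    rwa [and_comm]

/-- The indicator that `k` positive differences are missing. -/
noncomputable def fk (n k : ℕ) (s : ℕ → Bool) : ℝ := if mD s n = k then 1 else 0

theorem fk_dep (n k : ℕ) : DepOn {i : ℕ | i < n} (fk n k) := by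
  intro s s' h
  unfold fk
  rw [mD_congr fun i hi => h i hi]

/-- all bits are `true` -/
def sT : ℕ → Bool := fun _ => true

/-- The distribution of the number of missing positive differences. -/
noncomputable def Pt (n k : ℕ) : ℝ := Ex (List.range n) (fk n k) sT

/-- The same, conditioned on `0 ∈ S`. -/
noncomputable def Vt (n k : ℕ) : ℝ := Ex (List.range' 1 (n - 1)) (fk n k) sT

/-- The same, conditioned on `0, n - 1 ∈ S`. -/
noncomputable def Rt (n k : ℕ) : ℝ := Ex (List.range' 1 (n - 2)) (fk n k) sT

theorem upd_sT (n : ℕ) : Function.update sT n true = sT := by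
  funext i
  by_cases h : i = n
  · subst h; simp [sT]
  · rw [Function.update_of_ne h]

theorem false_part {L : List ℕ} {n : ℕ} (hn : 1 ≤ n) (hL : n ∉ L) (k : ℕ) :
    Ex L (fk (n + 1) k) (Function.update sT n false) =
      if k = 0 then 0 else Ex L (fk n (k - 1)) sT := by
  have h1 : Ex L (fk (n + 1) k) (Function.update sT n false) =
      Ex L (fun s => if k = 0 then 0 else fk n (k - 1) s) (Function.update sT n false) := by
    apply Ex_congr
    intro s hs
    have hsn : s n = false := by rw [hs n hL]; simp
    unfold fk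
    rw [mD_succ_of_false hn hsn]
    split_ifs <;> first | rfl | omega
  rw [h1]
  by_cases hk : k = 0
  · simp only [if_pos hk, Ex_const]
  · simp only [if_neg hk]
    apply Ex_congr_off (fk_dep n (k - 1))
    intro i hi _
    have : i ≠ n := by
      have : i < n := hi
      omega
    rw [Function.update_of_ne this]

theorem Pt_succ {n : ℕ} (hn : 1 ≤ n) (k : ℕ) :
    Pt (n + 1) k = ((if k = 0 then 0 else Pt n (k - 1)) + Vt (n + 1) k) / 2 := by
  unfold Pt Vt
  have hp : (List.range (n + 1)).Perm ([n] ++ List.range n) := by
    rw [List.range_succ]; exact List.perm_append_comm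
  rw [Ex_perm hp, Ex_append, Ex_cons_apply, Ex_nil, false_part hn (by simp), upd_sT,
    Nat.add_sub_cancel]
  congr 2
  -- reflection
  have h := Ex_map (ι := ℕ) (κ := ℕ) (fun i => n - i) (D := {i | i ≤ n})
    (by intro i hi j hj h; simp only [Set.mem_ofPred_eq] at hi hj h; omega)
    (f := fk (n + 1) k) ((fk_dep (n + 1) k).mono (by intro i hi; simp only [Set.mem_ofPred_eq] at hi ⊢; omega))
    (List.range n) (by intro i hi; rw [List.mem_range] at hi; simp only [Set.mem_ofPred_eq]; omega)
    sT
  have e1 : (fun i => sT (n - i)) = sT := rfl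
  rw [e1] at h
  rw [← h]
  have e2 : (fun s : ℕ → Bool => fk (n + 1) k fun i => s (n - i)) = fk (n + 1) k := by
    funext s
    unfold fk
    rw [mD_reflect]
  rw [e2]
  apply congrFun
  apply Ex_perm
  rw [List.perm_ext_iff_of_nodup]
  · intro i
    rw [List.mem_map, List.mem_range'_1]
    constructor
    · rintro ⟨j, hj, rfl⟩
      rw [List.mem_range] at hj
      omega
    · rintro hi
      exact ⟨n - i, by rw [List.mem_range]; omega, by omega⟩
  · rw [List.nodup_map_iff_inj_on List.nodup_range]
    intro i hi j hj h
    rw [List.mem_range] at hi hj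
    omega
  · exact List.nodup_range'

theorem Vt_succ {n : ℕ} (hn : 1 ≤ n) (k : ℕ) :
    Vt (n + 1) k = ((if k = 0 then 0 else Vt n (k - 1)) + Rt (n + 1) k) / 2 := by
  unfold Vt Rt
  obtain ⟨m, rfl⟩ : ∃ m, n = m + 1 := ⟨n - 1, by omega⟩
  have hp : (List.range' 1 (m + 1)).Perm ([m + 1] ++ List.range' 1 m) := by
    rw [List.range'_concat, show 1 + 1 * m = m + 1 by ring]
    exact List.perm_append_comm
  rw [Nat.add_sub_cancel, Ex_perm hp, Ex_append, Ex_cons_apply, Ex_nil,
    false_part hn (by rw [List.mem_range'_1]; omega), upd_sT, Nat.add_sub_cancel]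
  rfl

end Pool.Agent.Helper29.Mstd
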