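import Pool.Agent.Helper29.Mstd.Model

set_option autoImplicit false
set_option linter.unusedSimpArgs false

/-!
# Tail bounds: missing elements beyond a window
-/

namespace Pool.Agent.Helper29.Mstd

section general

variable {ι : Type*} [DecidableEq ι]

theorem Ex_drop_right {D : Set ι} {f : (ι → Bool) → ℝ} (hf : DepOn D f) (L L' : List ι)
    (hL : ∀ i ∈ L', i ∉ D) (c : ι → Bool) : Ex (L ++ L') f c = Ex L f c := by
  rw [Ex_append]
  exact Ex_congr fun c' _ => Ex_eq_self fun c'' h => hf.agree hL h

theorem Ex_congr_off {D : Set ι} {f : (ι → Bool) → ℝ} (hf : DepOn D f) {L : List ι}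
    {c c' : ι → Bool} (h : ∀ i ∈ D, i ∉ L → c i = c' i) : Ex L f c = Ex L f c' := by
  induction L generalizing c c' with
  | nil => exact hf c c' fun i hi => h i hi (by simp)
  | cons i L ih =>
    rw [Ex_cons_apply, Ex_cons_apply]
    have key : ∀ v, Ex L f (Function.update c i v) = Ex L f (Function.update c' i v) := by
      intro v
      apply ih
      intro j hj hjL
      rcases eq_or_ne j i with rfl | hji
      · simp
      · rw [Function.update_of_ne hji, Function.update_of_ne hji]
        exact h j hj (by simp [hji, hjL])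
    rw [key, key]

theorem Ex_pair {D : Set ι} {f : (ι → Bool) → ℝ} (hf : DepOn D f) {L : List ι} (hnd : L.Nodup)
    {x y : ι} (hx : x ∈ L) (hy : y ∈ L) (hxy : x ≠ y)
    (hD : ∀ i ∈ L, i ∈ D → i = x ∨ i = y) (c : ι → Bool) :
    Ex L f c = Ex [x, y] f c := by
  have h1 : L.Perm (x :: L.erase x) := List.perm_cons_erase hx
  have hy' : y ∈ L.erase x := (List.mem_erase_of_ne hxy.symm).2 hy
  have h2 : (L.erase x).Perm (y :: (L.erase x).erase y) := List.perm_cons_erase hy'
  have h3 : L.Perm ([x, y] ++ (L.erase x).erase y) := h1.trans (h2.cons x)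
  rw [Ex_perm h3]
  apply Ex_drop_right hf
  intro i hi hiD
  have hnd1 : (L.erase x).Nodup := hnd.erase x
  have hi1 : i ≠ y ∧ i ∈ L.erase x := (List.Nodup.mem_erase_iff hnd1).1 hi
  have hi2 : i ≠ x ∧ i ∈ L := (List.Nodup.mem_erase_iff hnd).1 hi1.2
  rcases hD i hi2.2 hiD with h | h
  · exact hi2.1 h
  · exact hi1.1 h

end general

theorem reg_nodup (a len : ℕ) : (reg a len).Nodup := by
  induction len generalizing a with
  | zero => simp [reg_zero]
  | succ n ih =>
    rw [reg_succ, List.nodup_cons, List.nodup_cons]
    refine ⟨?_, ?_, ih _⟩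
    · intro h
      rw [List.mem_cons] at h
      rcases h with h | h
      · simp at h
      · rw [mem_reg] at h
        simp at h
    · intro h
      rw [mem_reg] at h
      simp at h

/-- The factor of position `i`: `1/2` for each of the two sets containing `i`. -/
noncomputable def psi (c : Cfg) (i : ℕ) : ℝ :=
  (if c (i, false) then 1 / 2 else 1) * (if c (i, true) then 1 / 2 else 1)

theorem psi_nonneg (c : Cfg) (i : ℕ) : 0 ≤ psi c i := by
  unfold psi; positivity

/-- The product of the factors of the positions `0, …, k`. -/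
noncomputable def wt (c : Cfg) (k : ℕ) : ℝ := ∏ i ∈ Finset.range (k + 1), psi c i

theorem wt_nonneg (c : Cfg) (k : ℕ) : 0 ≤ wt c k :=
  Finset.prod_nonneg fun i _ => psi_nonneg c i

theorem wt_succ (c : Cfg) (k : ℕ) : wt c (k + 1) = wt c k * psi c (k + 1) := by
  unfold wt
  rw [Finset.prod_range_succ]

theorem wt_congr {c c' : Cfg} {k : ℕ} (h : ∀ i ≤ k, ∀ b, c (i, b) = c' (i, b)) :
    wt c k = wt c' k := by
  unfold wt
  refine Finset.prod_congr rfl fun i hi => ?_
  rw [Finset.mem_range] at hi
  unfold psi
  rw [h i (by omega), h i (by omega)]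

/-- compatibility factor of the blocks `j` and `p` -/
noncomputable def chf (j p : ℕ) (c : Cfg) : ℝ :=
  if (c (j, false) && c (p, true)) || (c (j, true) && c (p, false)) then 0 else 1

/-- compatibility factor of the positions `i` (first set) and `p` (second set) -/
noncomputable def etf (i p : ℕ) (c : Cfg) : ℝ :=
  if c (i, false) && c (p, true) then 0 else 1

theorem chf_dep (j p : ℕ) : DepOn {x : ℕ × Bool | x.1 = j ∨ x.1 = p} (chf j p) := by
  intro c c' h
  unfold chf
  rw [h (j, false) (by simp), h (p, true) (by simp), h (j, true) (by simp), h (p, false) (by simp)]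

theorem etf_dep (i p : ℕ) : DepOn {x : ℕ × Bool | x = (i, false) ∨ x = (p, true)} (etf i p) := by
  intro c c' h
  unfold etf
  rw [h (i, false) (by simp), h (p, true) (by simp)]

theorem ex_chf {j p a len : ℕ} (hj : j < a) (hp : a ≤ p) (hp' : p < a + len) (c : Cfg) :
    Ex (reg a len) (chf j p) c = psi c j := by
  rw [Ex_pair (chf_dep j p) (reg_nodup a len) (x := (p, false)) (y := (p, true))
    (mem_reg.2 ⟨hp, hp'⟩) (mem_reg.2 ⟨hp, hp'⟩) (by simp)]
  · have hne : ∀ (d : Cfg) (a b b' : Bool), set2 d p a b (j, b') = d (j, b') :=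
      fun d a b b' => set2_ne d (by omega) a b b'
    rw [Ex_two]
    unfold chf psi
    simp only [set2_false, set2_true, hne]
    cases c (j, false) <;> cases c (j, true) <;> norm_num
  · intro i hi hiD
    rw [mem_reg] at hi
    simp only [Set.mem_ofPred_eq] at hiD
    rcases hiD with h | h
    · omega
    · rcases i with ⟨i, b⟩
      simp only at h
      subst h
      cases b <;> simp

theorem ex_etf {i p a len : ℕ} (hi : a ≤ i) (hi' : i < a + len) (hp : a ≤ p) (hp' : p < a + len)
    (c : Cfg) : Ex (reg a len) (etf i p) c = 3 / 4 := by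
  rw [Ex_pair (etf_dep i p) (reg_nodup a len) (x := (i, false)) (y := (p, true))
    (mem_reg.2 ⟨hi, hi'⟩) (mem_reg.2 ⟨hp, hp'⟩) (by simp)]
  · simp only [Ex_cons_apply, Ex_nil, etf]
    have h1 : (p, true) ≠ (i, false) := by simp
    have h2 : (i, false) ≠ (p, true) := by simp
    simp only [Function.update_self, Function.update_of_ne h1, Function.update_of_ne h2]
    norm_num
  · intro i hi hiD
    simpa using hiD

/-- The probability that `m` is missing, given the window `[0, n]`. -/
theorem miss_ex {n len m : ℕ} (hm : n < m) (hm' : m < n + 1 + len) (c : Cfg) :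
    Ex (reg (n + 1) len) (fun c => if Miss c m then (1 : ℝ) else 0) c ≤
      wt c (min n (m - n - 1)) * (3 / 4) ^ (m - 2 * n - 1) := by
  set K := min n (m - n - 1) with hK
  have hle : ∀ c' : Cfg, (if Miss c' m then (1 : ℝ) else 0) ≤
      (∏ k ∈ Finset.range (K + 1), chf k (m - k) c') *
        ∏ i ∈ Finset.Ioo n (m - n), etf i (m - i) c' := by
    intro c'
    split_ifs with hM
    · rw [Finset.prod_eq_one, Finset.prod_eq_one, one_mul]
      · intro i hi
        rw [Finset.mem_Ioo] at hi
        have := hM i (by omega)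
        unfold etf
        rw [if_neg]
        simpa using this
      · intro k hk
        rw [Finset.mem_range] at hk
        have h1 := hM k (by omega)
        have h2 := hM (m - k) (Nat.sub_le _ _)
        rw [Nat.sub_sub_self (by omega)] at h2
        unfold chf
        rw [if_neg]
        rw [Bool.or_eq_true, Bool.and_eq_true, Bool.and_eq_true]
        rintro (h | h)
        · exact h1 h
        · exact h2 h.symm
    · apply mul_nonneg
      · apply Finset.prod_nonneg
        intro k _
        unfold chf
        split_ifs <;> norm_num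
      · apply Finset.prod_nonneg
        intro k _
        unfold etf
        split_ifs <;> norm_num
  refine (Ex_mono fun c' _ => hle c').trans (le_of_eq ?_)
  rw [Ex_mul_indep (D := ⋃ k ∈ Finset.range (K + 1), {x : ℕ × Bool | x.1 = k ∨ x.1 = m - k})
    (D' := ⋃ i ∈ Finset.Ioo n (m - n), {x : ℕ × Bool | x = (i, false) ∨ x = (m - i, true)})]
  · congr 1
    · rw [Ex_prod_indep (Finset.range (K + 1)) (f := fun k => chf k (m - k))
        (D := fun k => {x : ℕ × Bool | x.1 = k ∨ x.1 = m - k})]
      · unfold wt
        refine Finset.prod_congr rfl fun k hk => ?_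
        rw [Finset.mem_range] at hk
        exact ex_chf (by omega) (by omega) (by omega) c
      · intro k _
        exact chf_dep _ _
      · intro k hk k' hk' hne
        rw [Finset.mem_range] at hk hk'
        rw [Set.disjoint_left]
        intro x hx hx'
        simp only [Set.mem_ofPred_eq] at hx hx'
        omega
    · rw [Ex_prod_indep (Finset.Ioo n (m - n)) (f := fun i => etf i (m - i))
        (D := fun i => {x : ℕ × Bool | x = (i, false) ∨ x = (m - i, true)})]
      · rw [Finset.prod_congr rfl (g := fun _ => (3 / 4 : ℝ)), Finset.prod_const, Nat.card_Ioo]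
        · congr 1; omega
        · intro i hi
          rw [Finset.mem_Ioo] at hi
          exact ex_etf (by omega) (by omega) (by omega) (by omega) c
      · intro k _
        exact etf_dep _ _
      · intro k hk k' hk' hne
        rw [Finset.mem_Ioo] at hk hk'
        rw [Set.disjoint_left]
        intro x hx hx'
        simp only [Set.mem_ofPred_eq] at hx hx'
        rcases hx with rfl | rfl
        · rcases hx' with h | h
          · exact hne (Prod.ext_iff.1 h).1
          · exact absurd (Prod.ext_iff.1 h).2 (by simp)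
        · rcases hx' with h | h
          · exact absurd (Prod.ext_iff.1 h).2 (by simp)
          · have h1 : m - k = m - k' := (Prod.ext_iff.1 h).1
            omega
  · apply DepOn.prod
    intro k hk
    exact (chf_dep k (m - k)).mono
      (Set.subset_biUnion_of_mem (u := fun k => {x : ℕ × Bool | x.1 = k ∨ x.1 = m - k}) hk)
  · apply DepOn.prod
    intro k hk
    exact (etf_dep k (m - k)).mono (Set.subset_biUnion_of_mem
      (u := fun i => {x : ℕ × Bool | x = (i, false) ∨ x = (m - i, true)}) hk)
  · rw [Set.disjoint_left]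
    intro x hx hx'
    simp only [Set.mem_iUnion, Finset.mem_range, Finset.mem_Ioo, Set.mem_ofPred_eq,
      exists_prop] at hx hx'
    obtain ⟨k, hk, hx⟩ := hx
    obtain ⟨i, hi, hx'⟩ := hx'
    rcases hx' with rfl | rfl <;> simp only at hx <;> omega

/-- `m` is covered by the window `[0, n]`. -/
def Cov (c : Cfg) (n m : ℕ) : Prop :=
  ∃ i ≤ n, ∃ j ≤ n, i + j = m ∧ c (i, false) = true ∧ c (j, true) = true

theorem miss_ex_cov {n len m : ℕ} (c : Cfg) (h : Cov c n m) :
    Ex (reg (n + 1) len) (fun c => if Miss c m then (1 : ℝ) else 0) c = 0 := by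
  obtain ⟨i, hi, j, hj, hij, h1, h2⟩ := h
  refine (Ex_congr (g := fun _ => (0 : ℝ)) ?_).trans (Ex_const _ _ _)
  intro c' hc'
  rw [if_neg]
  intro hM
  apply hM i (by omega)
  rw [hc' _ (by rw [mem_reg]; simp only; omega), show m - i = j by omega,
    hc' _ (by rw [mem_reg]; simp only; omega)]
  exact ⟨h1, h2⟩

open Classical in
/-- The bound for the expected number of missing elements beyond the window `[0, n]`. -/
noncomputable def tau (c : Cfg) (n : ℕ) : ℝ :=
  (∑ k ∈ Finset.range n, if Cov c n (n + 1 + k) then 0 else wt c k) + 4 * wt c n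

theorem tail_ex (n len : ℕ) (c : Cfg) :
    Ex (reg (n + 1) len) (fun c => ∑ k ∈ Finset.range len,
      if Miss c (n + 1 + k) then (1 : ℝ) else 0) c ≤ tau c n := by
  classical
  rw [Ex_sum]
  set g : ℕ → ℝ := fun k => if k < n then (if Cov c n (n + 1 + k) then 0 else wt c k)
    else wt c n * (3 / 4) ^ (k - n) with hg
  have hg0 : ∀ k, 0 ≤ g k := by
    intro k
    simp only [hg]
    split_ifs
    · exact le_rfl
    · exact wt_nonneg _ _
    · exact mul_nonneg (wt_nonneg _ _) (by positivity)
  have h1 : ∀ k ∈ Finset.range len, Ex (reg (n + 1) len)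
      (fun c => if Miss c (n + 1 + k) then (1 : ℝ) else 0) c ≤ g k := by
    intro k hk
    rw [Finset.mem_range] at hk
    simp only [hg]
    split_ifs with h h'
    · rw [miss_ex_cov c h']
    · have := miss_ex (n := n) (len := len) (m := n + 1 + k) (by omega) (by omega) c
      rwa [show min n (n + 1 + k - n - 1) = k by omega,
        show n + 1 + k - 2 * n - 1 = 0 by omega, pow_zero, mul_one] at this
    · have := miss_ex (n := n) (len := len) (m := n + 1 + k) (by omega) (by omega) c
      rwa [show min n (n + 1 + k - n - 1) = n by omega,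
        show n + 1 + k - 2 * n - 1 = k - n by omega] at this
  refine (Finset.sum_le_sum h1).trans ?_
  have h2 : ∑ k ∈ Finset.range len, g k ≤ ∑ k ∈ Finset.range (n + len), g k := by
    apply Finset.sum_le_sum_of_subset_of_nonneg
    · intro i hi
      rw [Finset.mem_range] at hi ⊢
      omega
    · intro i _ _
      exact hg0 i
  refine h2.trans ?_
  rw [Finset.sum_range_add]
  unfold tau
  apply add_le_add
  · apply le_of_eq
    refine Finset.sum_congr rfl fun k hk => ?_
    rw [Finset.mem_range] at hk
    simp only [hg, if_pos hk]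
  · have h3 : ∀ j ∈ Finset.range len, g (n + j) = wt c n * (3 / 4) ^ j := by
      intro j _
      simp only [hg]
      rw [if_neg (by omega), Nat.add_sub_cancel_left]
    rw [Finset.sum_congr rfl h3, ← Finset.mul_sum, mul_comm]
    apply mul_le_mul_of_nonneg_right _ (wt_nonneg _ _)
    rw [geom_sum_eq (by norm_num)]
    have : (0 : ℝ) ≤ (3 / 4) ^ len := by positivity
    rw [div_le_iff_of_neg (by norm_num)]
    linarith

theorem cnt_add (c : Cfg) (n len : ℕ) :
    (cnt c (n + 1 + len) : ℝ) = cnt c (n + 1) +
      ∑ k ∈ Finset.range len, if Miss c (n + 1 + k) then (1 : ℝ) else 0 := by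
  induction len with
  | zero => simp
  | succ len ih =>
    rw [Finset.sum_range_succ, ← add_assoc, ← add_assoc, ← ih, cnt_succ c (by omega)]
    push_cast
    ring

/-- The bound at a leaf. -/
theorem leaf_bound {u sl : ℕ → ℕ} (hu : ∀ N t, u (N + t) ≤ u N + sl N * t) (n len : ℕ)
    (c : Cfg) : Ex (reg (n + 1) len) (fun c => (u (cnt c (n + 1 + len)) : ℝ)) c ≤
      u (cnt c (n + 1)) + sl (cnt c (n + 1)) * tau c n := by
  set N := cnt c (n + 1) with hN
  have h1 : ∀ c' : Cfg, Agree (reg (n + 1) len) c c' → (u (cnt c' (n + 1 + len)) : ℝ) ≤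
      (u N : ℝ) + (sl N : ℝ) * ∑ k ∈ Finset.range len,
        if Miss c' (n + 1 + k) then (1 : ℝ) else 0 := by
    intro c' hc'
    have h2 : cnt c' (n + 1) = N := by
      apply cnt_congr
      intro j hj b
      exact hc' _ (by rw [mem_reg]; simp only; omega)
    have h3 := cnt_add c' n len
    rw [h2] at h3
    have h4 : N ≤ cnt c' (n + 1 + len) := by
      have : (0 : ℝ) ≤ ∑ k ∈ Finset.range len, if Miss c' (n + 1 + k) then (1 : ℝ) else 0 :=
        Finset.sum_nonneg fun k _ => by split_ifs <;> norm_num
      have h5 : (N : ℝ) ≤ cnt c' (n + 1 + len) := by linarith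
      exact_mod_cast h5
    obtain ⟨t, ht⟩ := Nat.exists_eq_add_of_le h4
    have h6 : (t : ℝ) = ∑ k ∈ Finset.range len, if Miss c' (n + 1 + k) then (1 : ℝ) else 0 := by
      rw [ht] at h3
      push_cast at h3
      linarith
    rw [← h6, ht]
    exact_mod_cast hu N t
  refine (Ex_mono h1).trans ?_
  rw [Ex_add, Ex_const, Ex_const_mul]
  have := mul_le_mul_of_nonneg_left (tail_ex n len c) (Nat.cast_nonneg (α := ℝ) (sl N))
  linarith

end Pool.Agent.Helper29.Mstd
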