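import Pool.Agent.Helper29.Mstd.Tail

set_option autoImplicit false
set_option linter.unusedSimpArgs false
set_option linter.unusedVariables false

/-!
# A verified tree search

`go` computes an upper bound for the average of `u (cnt c M)`, by splitting windows.
-/

namespace Pool.Agent.Helper29.Mstd

/-- The scaled tail bound. -/
def tl (ws : List ℕ) (j S T : ℕ) : ℕ :=
  List.rec (motive := fun _ => ℕ → ℕ → ℕ) (fun _ T => T)
    (fun w _ ih j T => ih (Nat.pred j) (Nat.add T (Nat.mul (Nat.sub (nat_lit 1)
      (Nat.mod (Nat.shiftRight S j) (nat_lit 2))) w))) ws j T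

/-- The tree search. -/
def go (u sl o : ℕ → ℕ) (thr f : ℕ) : ℕ → ℕ → ℕ → ℕ → List ℕ → ℕ → ℕ → ℕ :=
  Nat.rec (motive := fun _ => ℕ → ℕ → ℕ → ℕ → List ℕ → ℕ → ℕ → ℕ)
  (fun n _ _ S ws w N => Nat.add (Nat.mul (u N) (nat_lit 1099511627776))
    (Nat.mul (sl N) (tl ws (Nat.add n n) S (Nat.mul (nat_lit 4) w))))
  (fun f ih n A B S ws w N =>
    cond (Nat.beq (o N) (nat_lit 0))
      (Nat.mul (Nat.mul (u N) (nat_lit 1099511627776)) (Nat.pow (nat_lit 4) (Nat.succ f)))
      ((fun T =>
        cond (Nat.ble (Nat.mul (Nat.mul (o N) T) (Nat.pow (nat_lit 4) (Nat.succ f))) thr)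
          (Nat.mul (Nat.add (Nat.mul (u N) (nat_lit 1099511627776)) (Nat.mul (sl N) T))
            (Nat.pow (nat_lit 4) (Nat.succ f)))
          ((fun p X W A' B' =>
            cond (Nat.beq A B)
              (Nat.add (Nat.add (ih p A B S W w (cond (Nat.testBit S p) N (Nat.succ N)))
                (ih p A' B' (Nat.lor S (Nat.mul A' X)) W
                  (Nat.div (Nat.add w (nat_lit 3)) (nat_lit 4)) N))
                (Nat.mul (nat_lit 2) (ih p A' B (Nat.lor S (Nat.mul B X)) W
                  (Nat.div (Nat.add w (nat_lit 1)) (nat_lit 2)) N)))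
              (Nat.add (Nat.add (ih p A B S W w (cond (Nat.testBit S p) N (Nat.succ N)))
                (ih p A' B' (Nat.lor (Nat.lor S (Nat.mul A' X)) (Nat.mul B' X)) W
                  (Nat.div (Nat.add w (nat_lit 3)) (nat_lit 4)) N))
                (Nat.add (ih p A' B (Nat.lor S (Nat.mul B X)) W
                  (Nat.div (Nat.add w (nat_lit 1)) (nat_lit 2)) N)
                  (ih p A B' (Nat.lor S (Nat.mul A X)) W
                  (Nat.div (Nat.add w (nat_lit 1)) (nat_lit 2)) N))))
            (Nat.succ n) (Nat.pow (nat_lit 2) (Nat.succ n)) (List.cons w ws)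
            (Nat.add A (Nat.pow (nat_lit 2) (Nat.succ n)))
            (Nat.add B (Nat.pow (nat_lit 2) (Nat.succ n)))))
        (tl ws (Nat.add n n) S (Nat.mul (nat_lit 4) w)))) f

theorem tl_nil (j S T : ℕ) : tl [] j S T = T := rfl

theorem tl_cons (w : ℕ) (ws : List ℕ) (j S T : ℕ) :
    tl (w :: ws) j S T = tl ws (j - 1) S (T + (1 - (S >>> j) % 2) * w) := rfl

theorem go_zero (u sl o : ℕ → ℕ) (thr n A B S : ℕ) (ws : List ℕ) (w N : ℕ) :
    go u sl o thr 0 n A B S ws w N = u N * 2 ^ 40 + sl N * tl ws (n + n) S (4 * w) := rfl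

theorem go_succ (u sl o : ℕ → ℕ) (thr f n A B S : ℕ) (ws : List ℕ) (w N : ℕ) :
    go u sl o thr (f + 1) n A B S ws w N =
      cond (Nat.beq (o N) 0) (u N * 2 ^ 40 * 4 ^ (f + 1))
        (cond (Nat.ble (o N * tl ws (n + n) S (4 * w) * 4 ^ (f + 1)) thr)
          ((u N * 2 ^ 40 + sl N * tl ws (n + n) S (4 * w)) * 4 ^ (f + 1))
          (cond (Nat.beq A B)
            (go u sl o thr f (n + 1) A B S (w :: ws) w (cond (Nat.testBit S (n + 1)) N (N + 1)) +
              go u sl o thr f (n + 1) (A + 2 ^ (n + 1)) (B + 2 ^ (n + 1))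
                (S ||| (A + 2 ^ (n + 1)) * 2 ^ (n + 1)) (w :: ws) ((w + 3) / 4) N +
              2 * go u sl o thr f (n + 1) (A + 2 ^ (n + 1)) B
                (S ||| B * 2 ^ (n + 1)) (w :: ws) ((w + 1) / 2) N)
            (go u sl o thr f (n + 1) A B S (w :: ws) w (cond (Nat.testBit S (n + 1)) N (N + 1)) +
              go u sl o thr f (n + 1) (A + 2 ^ (n + 1)) (B + 2 ^ (n + 1))
                (S ||| (A + 2 ^ (n + 1)) * 2 ^ (n + 1) ||| (B + 2 ^ (n + 1)) * 2 ^ (n + 1))
                (w :: ws) ((w + 3) / 4) N +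
              (go u sl o thr f (n + 1) (A + 2 ^ (n + 1)) B
                (S ||| B * 2 ^ (n + 1)) (w :: ws) ((w + 1) / 2) N +
              go u sl o thr f (n + 1) A (B + 2 ^ (n + 1))
                (S ||| A * 2 ^ (n + 1)) (w :: ws) ((w + 1) / 2) N)))) := rfl

/-- The list of scaled weights is correct. -/
def WOK (c : Cfg) : List ℕ → ℕ → Prop
  | [], k => k = 0
  | _ :: _, 0 => False
  | w :: ws, k + 1 => wt c k * 2 ^ 40 ≤ w ∧ WOK c ws k

theorem WOK.congr {c c' : Cfg} {ws : List ℕ} {k : ℕ} (h : WOK c ws k)
    (hc : ∀ i < k, ∀ b, c (i, b) = c' (i, b)) : WOK c' ws k := by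
  induction ws generalizing k with
  | nil => exact h
  | cons w ws ih =>
    cases k with
    | zero => exact h.elim
    | succ k =>
      refine ⟨?_, ih h.2 fun i hi => hc i (by omega)⟩
      rw [← wt_congr (c := c) fun i hi => hc i (by omega)]
      exact h.1

open Classical in
theorem tl_spec {c : Cfg} {n S : ℕ} (hS : ∀ m, S.testBit m = true → Cov c n m) (ws : List ℕ)
    (k T : ℕ) (h : WOK c ws k) :
    (T : ℝ) + (∑ i ∈ Finset.range k, if Cov c n (n + 1 + i) then 0 else wt c i) * 2 ^ 40 ≤
      tl ws (n + k) S T := by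
  induction ws generalizing k T with
  | nil =>
    have : k = 0 := h
    subst this
    simp [tl_nil]
  | cons w ws ih =>
    cases k with
    | zero => exact h.elim
    | succ k =>
      rw [tl_cons, show n + (k + 1) - 1 = n + k by omega]
      refine le_trans ?_ (ih k _ h.2)
      rw [Finset.sum_range_succ]
      have h1 := h.1
      have h2 := wt_nonneg c k
      by_cases hb : S.testBit (n + (k + 1)) = true
      · have hc := hS _ hb
        rw [show n + (k + 1) = n + 1 + k by omega] at hc
        rw [if_pos hc]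
        push_cast
        have : (0 : ℝ) ≤ ((1 - (S >>> (n + (k + 1))) % 2 : ℕ) : ℝ) * (w : ℝ) := by positivity
        linarith
      · have h3 : (S >>> (n + (k + 1))) % 2 = 0 := by
          rw [Nat.testBit_eq_decide_div_mod_eq, decide_eq_true_eq] at hb
          rw [Nat.shiftRight_eq_div_pow]
          omega
        rw [h3]
        have h4 : (if Cov c n (n + 1 + k) then (0 : ℝ) else wt c k) ≤ wt c k := by
          split_ifs
          · exact h2
          · exact le_rfl
        push_cast
        nlinarith

/-- The invariant of the search. -/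
structure Inv (n A B S : ℕ) (ws : List ℕ) (w N : ℕ) (c : Cfg) : Prop where
  hA : ∀ i, A.testBit i = (decide (i ≤ n) && c (i, false))
  hB : ∀ i, B.testBit i = (decide (i ≤ n) && c (i, true))
  hS : ∀ m, S.testBit m = true ↔ Cov c n m
  hws : WOK c ws n
  hw : wt c n * 2 ^ 40 ≤ w
  hN : cnt c (n + 1) = N
  h0 : ∀ b, c (0, b) = true

theorem bits_lt {A n : ℕ} {f : ℕ → Bool} (h : ∀ i, A.testBit i = (decide (i ≤ n) && f i)) :
    A < 2 ^ (n + 1) := by
  apply Nat.lt_pow_two_of_testBit
  intro i hi
  rw [h, decide_eq_false (by omega)]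
  rfl

theorem bits_add {A n : ℕ} {f : ℕ → Bool} (h : ∀ i, A.testBit i = (decide (i ≤ n) && f i))
    {f' : ℕ → Bool} (hf : ∀ i ≤ n, f' i = f i) (hf' : f' (n + 1) = true) (i : ℕ) :
    (A + 2 ^ (n + 1)).testBit i = (decide (i ≤ n + 1) && f' i) := by
  have hlt := bits_lt h
  have e : A + 2 ^ (n + 1) = 2 ^ (n + 1) * 1 + A := by ring
  rw [e, Nat.testBit_two_pow_mul_add 1 hlt]
  split_ifs with hi
  · rw [h, hf i (by omega), decide_eq_true (by omega), decide_eq_true (by omega)]
  · rcases Nat.lt_or_ge (n + 1) i with h1 | h1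
    · rw [decide_eq_false (by omega), Bool.false_and]
      have : i - (n + 1) ≠ 0 := by omega
      rw [Nat.testBit_one_eq_true_iff_self_eq_zero.not.mpr this |> Bool.eq_false_iff.mpr]
    · obtain rfl : i = n + 1 := by omega
      rw [hf']
      simp

theorem bits_same {A n : ℕ} {f : ℕ → Bool} (h : ∀ i, A.testBit i = (decide (i ≤ n) && f i))
    {f' : ℕ → Bool} (hf : ∀ i ≤ n, f' i = f i) (hf' : f' (n + 1) = false) (i : ℕ) :
    A.testBit i = (decide (i ≤ n + 1) && f' i) := by
  rw [h]
  rcases Nat.lt_or_ge n i with h1 | h1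
  · rw [decide_eq_false (by omega), Bool.false_and]
    rcases Nat.lt_or_ge (n + 1) i with h2 | h2
    · rw [decide_eq_false (by omega), Bool.false_and]
    · obtain rfl : i = n + 1 := by omega
      rw [hf', Bool.and_false]
  · rw [hf i h1, decide_eq_true h1, decide_eq_true (by omega)]

theorem bits_mul {A n : ℕ} {f : ℕ → Bool} (h : ∀ i, A.testBit i = (decide (i ≤ n) && f i))
    (p m : ℕ) : (A * 2 ^ p).testBit m = true ↔ ∃ j ≤ n, j + p = m ∧ f j = true := by
  rw [Nat.testBit_mul_two_pow, Bool.and_eq_true, h, Bool.and_eq_true, decide_eq_true_eq,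
    decide_eq_true_eq]
  constructor
  · rintro ⟨h1, h2, h3⟩
    exact ⟨m - p, h2, by omega, h3⟩
  · rintro ⟨j, hj, rfl, h3⟩
    refine ⟨by omega, ?_, ?_⟩
    · simpa using hj
    · simpa using h3

theorem cov_succ (c : Cfg) (n m : ℕ) (a b : Bool) :
    Cov (set2 c (n + 1) a b) (n + 1) m ↔ Cov c n m ∨
      (a = true ∧ ∃ j ≤ n + 1, j + (n + 1) = m ∧ set2 c (n + 1) a b (j, true) = true) ∨
      (b = true ∧ ∃ i ≤ n + 1, i + (n + 1) = m ∧ set2 c (n + 1) a b (i, false) = true) := by
  constructor
  · rintro ⟨i, hi, j, hj, hij, h1, h2⟩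
    by_cases hi' : i = n + 1
    · subst hi'
      rw [set2_false] at h1
      exact Or.inr (Or.inl ⟨h1, j, hj, by omega, h2⟩)
    · by_cases hj' : j = n + 1
      · subst hj'
        rw [set2_true] at h2
        exact Or.inr (Or.inr ⟨h2, i, hi, by omega, h1⟩)
      · rw [set2_ne _ hi'] at h1
        rw [set2_ne _ hj'] at h2
        exact Or.inl ⟨i, by omega, j, by omega, hij, h1, h2⟩
  · rintro (⟨i, hi, j, hj, hij, h1, h2⟩ | ⟨ha, j, hj, hjm, h⟩ | ⟨hb, i, hi, him, h⟩)
    · refine ⟨i, by omega, j, by omega, hij, ?_, ?_⟩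
      · rwa [set2_ne _ (by omega)]
      · rwa [set2_ne _ (by omega)]
    · exact ⟨n + 1, le_rfl, j, hj, by omega, by rwa [set2_false], h⟩
    · exact ⟨i, hi, n + 1, le_rfl, him, h, by rwa [set2_true]⟩

theorem inv_step {n A B S : ℕ} {ws : List ℕ} {w N : ℕ} {c : Cfg} (h : Inv n A B S ws w N c)
    (a b : Bool) {A' B' S' w' N' : ℕ} (hA' : A' = if a then A + 2 ^ (n + 1) else A)
    (hB' : B' = if b then B + 2 ^ (n + 1) else B)
    (hS' : ∀ m, S'.testBit m = true ↔ S.testBit m = true ∨
      (a = true ∧ (B' * 2 ^ (n + 1)).testBit m = true) ∨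
      (b = true ∧ (A' * 2 ^ (n + 1)).testBit m = true))
    (hw' : (w : ℝ) * ((if a then 1 / 2 else 1) * (if b then 1 / 2 else 1)) ≤ w')
    (hN' : N' = N + if a || b then 0 else if S.testBit (n + 1) then 0 else 1) :
    Inv (n + 1) A' B' S' (w :: ws) w' N' (set2 c (n + 1) a b) := by
  have hsame : ∀ i ≤ n, ∀ b', set2 c (n + 1) a b (i, b') = c (i, b') :=
    fun i hi b' => set2_ne _ (by omega) _ _ _
  have hA1 : ∀ i, A'.testBit i = (decide (i ≤ n + 1) && set2 c (n + 1) a b (i, false)) := by
    intro i
    rw [hA']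
    cases a
    · exact bits_same h.hA (f' := fun i => set2 c (n + 1) false b (i, false))
        (fun i hi => hsame i hi _) (by simp) i
    · exact bits_add h.hA (f' := fun i => set2 c (n + 1) true b (i, false))
        (fun i hi => hsame i hi _) (by simp) i
  have hB1 : ∀ i, B'.testBit i = (decide (i ≤ n + 1) && set2 c (n + 1) a b (i, true)) := by
    intro i
    rw [hB']
    cases b
    · exact bits_same h.hB (f' := fun i => set2 c (n + 1) a false (i, true))
        (fun i hi => hsame i hi _) (by simp) i
    · exact bits_add h.hB (f' := fun i => set2 c (n + 1) a true (i, true))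
        (fun i hi => hsame i hi _) (by simp) i
  have h0 : ∀ b', set2 c (n + 1) a b (0, b') = true := by
    intro b'
    rw [hsame 0 (Nat.zero_le _), h.h0]
  refine ⟨hA1, hB1, ?_, ?_, ?_, ?_, h0⟩
  · intro m
    rw [hS', cov_succ, h.hS m, bits_mul (f := fun j => set2 c (n + 1) a b (j, true)) hB1,
      bits_mul (f := fun j => set2 c (n + 1) a b (j, false)) hA1]
  · refine ⟨?_, h.hws.congr fun i hi b' => (hsame i (by omega) b').symm⟩
    rw [wt_congr (c' := c) fun i hi => hsame i (by omega)]
    exact h.hw
  · rw [wt_succ, wt_congr (c' := c) fun i hi => hsame i (by omega)]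
    unfold psi
    rw [set2_false, set2_true]
    refine le_trans ?_ hw'
    have h1 := h.hw
    have h2 : (0 : ℝ) ≤ (if a then 1 / 2 else 1) * (if b then 1 / 2 else 1) := by positivity
    nlinarith
  · rw [cnt_succ _ (by omega), hN']
    congr 1
    · rw [← h.hN]
      exact cnt_congr fun j hj => hsame j (by omega)
    · by_cases hab : (a || b) = true
      · rw [if_pos hab, if_neg]
        intro hM
        rw [Bool.or_eq_true] at hab
        rcases hab with rfl | rfl
        · apply hM (n + 1) le_rfl
          rw [set2_false, Nat.sub_self, h0]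
          exact ⟨rfl, rfl⟩
        · apply hM 0 (Nat.zero_le _)
          rw [Nat.sub_zero, set2_true, h0]
          exact ⟨rfl, rfl⟩
      · rw [if_neg hab]
        rw [Bool.or_eq_true, not_or, Bool.not_eq_true, Bool.not_eq_true] at hab
        obtain ⟨rfl, rfl⟩ := hab
        have key : Miss (set2 c (n + 1) false false) (n + 1) ↔ ¬ S.testBit (n + 1) = true := by
          rw [h.hS]
          constructor
          · rintro hM ⟨i, hi, j, hj, hij, h1, h2⟩
            apply hM i (by omega)
            rw [show n + 1 - i = j by omega, hsame i hi, hsame j hj]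
            exact ⟨h1, h2⟩
          · rintro hC j hj ⟨h1, h2⟩
            apply hC
            have hj1 : j ≠ n + 1 := by
              rintro rfl
              rw [set2_false] at h1
              exact absurd h1 (by simp)
            have hj2 : n + 1 - j ≠ n + 1 := by
              intro e
              rw [e, set2_true] at h2
              exact absurd h2 (by simp)
            rw [set2_ne _ hj1] at h1
            rw [set2_ne _ hj2] at h2
            exact ⟨j, by omega, n + 1 - j, by omega, by omega, h1, h2⟩
        by_cases hb : S.testBit (n + 1) = true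
        · rw [if_neg (by rw [key]; simpa using hb), if_pos hb]
        · rw [if_pos (key.2 hb), if_neg hb]

theorem half_le (w : ℕ) : (w : ℝ) * (1 / 2) ≤ ((w + 1) / 2 : ℕ) := by
  have : w ≤ 2 * ((w + 1) / 2) := by omega
  have h : (w : ℝ) ≤ 2 * ((w + 1) / 2 : ℕ) := by exact_mod_cast this
  linarith

theorem quarter_le (w : ℕ) : (w : ℝ) * (1 / 4) ≤ ((w + 3) / 4 : ℕ) := by
  have : w ≤ 4 * ((w + 3) / 4) := by omega
  have h : (w : ℝ) ≤ 4 * ((w + 3) / 4 : ℕ) := by exact_mod_cast this
  linarith

/-- The average of `u (cnt c M)` over the positions `n+1, …, M-1`. -/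
noncomputable def V (u : ℕ → ℕ) (M n : ℕ) (c : Cfg) : ℝ :=
  Ex (reg (n + 1) (M - 1 - n)) (fun c => (u (cnt c M) : ℝ)) c

theorem V_split (u : ℕ → ℕ) {M n : ℕ} (h : n + 2 ≤ M) (c : Cfg) :
    V u M n c = (V u M (n + 1) (set2 c (n + 1) false false) +
      V u M (n + 1) (set2 c (n + 1) false true) + V u M (n + 1) (set2 c (n + 1) true false) +
      V u M (n + 1) (set2 c (n + 1) true true)) / 4 := by
  unfold V
  rw [show M - 1 - n = (M - 1 - (n + 1)) + 1 by omega, reg_succ]
  have : (n + 1, false) :: (n + 1, true) :: reg (n + 1 + 1) (M - 1 - (n + 1)) =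
    [(n + 1, false), (n + 1, true)] ++ reg (n + 1 + 1) (M - 1 - (n + 1)) := rfl
  rw [this, Ex_append, Ex_two]

theorem miss_swap (c : Cfg) (i : ℕ) : Miss (fun x => c (x.1, !x.2)) i ↔ Miss c i := by
  unfold Miss
  constructor
  · intro h j hj
    have := h (i - j) (Nat.sub_le _ _)
    rw [Nat.sub_sub_self hj] at this
    simpa [and_comm] using this
  · intro h j hj
    have := h (i - j) (Nat.sub_le _ _)
    rw [Nat.sub_sub_self hj] at this
    simpa [and_comm] using this

theorem cnt_swap (c : Cfg) (M : ℕ) : cnt (fun x => c (x.1, !x.2)) M = cnt c M := by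
  unfold cnt
  congr 1
  exact Finset.filter_congr fun i _ => miss_swap c i

theorem cnt_dep (u : ℕ → ℕ) (M : ℕ) :
    DepOn {x : ℕ × Bool | x.1 < M} (fun c => (u (cnt c M) : ℝ)) := by
  intro c c' h
  simp only
  rw [cnt_congr fun j hj b => h (j, b) hj]

theorem V_swap (u : ℕ → ℕ) (M n : ℕ) (c : Cfg) :
    V u M n (fun x => c (x.1, !x.2)) = V u M n c := by
  unfold V
  have h := Ex_map (ι := ℕ × Bool) (κ := ℕ × Bool) (fun x => (x.1, !x.2)) (D := Set.univ)
    (by rintro ⟨i, b⟩ _ ⟨j, b'⟩ _ h; simpa using h)
    (f := fun c => (u (cnt c M) : ℝ)) (fun c c' h => by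
      rw [show c = c' from funext fun i => h i (Set.mem_univ _)])
    (reg (n + 1) (M - 1 - n)) (fun _ _ => Set.mem_univ _) c
  rw [← h]
  have h2 : (fun s : Cfg => (u (cnt (fun x => s (x.1, !x.2)) M) : ℝ)) =
      fun s => (u (cnt s M) : ℝ) := by
    funext s
    rw [cnt_swap]
  rw [h2]
  apply congrFun
  apply Ex_perm
  rw [List.perm_ext_iff_of_nodup]
  · rintro ⟨i, b⟩
    rw [List.mem_map]
    constructor
    · rintro ⟨⟨j, b'⟩, hj, h⟩
      rw [mem_reg] at hj ⊢
      simp only [Prod.mk.injEq] at h
      omega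
    · intro hi
      rw [mem_reg] at hi
      exact ⟨(i, !b), mem_reg.2 hi, by simp⟩
  · apply (reg_nodup _ _).map
    rintro ⟨i, b⟩ ⟨j, b'⟩ h
    simpa using h
  · exact reg_nodup _ _

theorem V_congr (u : ℕ → ℕ) {M n : ℕ} {c c' : Cfg}
    (h : ∀ i ≤ n, ∀ b, c (i, b) = c' (i, b)) : V u M n c = V u M n c' := by
  unfold V
  apply Ex_congr_off (cnt_dep u M)
  rintro ⟨i, b⟩ hi hiL
  apply h
  rw [mem_reg] at hiL
  simp only [Set.mem_ofPred_eq] at hi hiL
  omega

/-- Correctness of the search. -/
theorem go_spec {u sl o : ℕ → ℕ} (hu : ∀ N t, u (N + t) ≤ u N + sl N * t)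
    (ho : ∀ N, o N = 0 → sl N = 0) (thr : ℕ) (f : ℕ) :
    ∀ {n A B S : ℕ} {ws : List ℕ} {w N : ℕ} {c : Cfg}, Inv n A B S ws w N c →
      ∀ {M : ℕ}, n + f + 1 ≤ M →
      V u M n c * (2 ^ 40 * 4 ^ f) ≤ go u sl o thr f n A B S ws w N := by
  have leaf : ∀ {n A B S : ℕ} {ws : List ℕ} {w N : ℕ} {c : Cfg}, Inv n A B S ws w N c →
      ∀ {M : ℕ}, n + 1 ≤ M →
      V u M n c * 2 ^ 40 ≤ (u N * 2 ^ 40 + sl N * tl ws (n + n) S (4 * w) : ℕ) := by
    intro n A B S ws w N c h M hM
    have h1 := leaf_bound hu n (M - 1 - n) c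
    rw [show n + 1 + (M - 1 - n) = M by omega, h.hN] at h1
    have h2 := tl_spec (fun m hm => (h.hS m).1 hm) ws n (4 * w) h.hws
    have h3 : tau c n * 2 ^ 40 ≤ tl ws (n + n) S (4 * w) := by
      refine le_trans ?_ h2
      unfold tau
      push_cast
      have := h.hw
      linarith
    unfold V
    push_cast
    have h4 : (0 : ℝ) ≤ sl N := Nat.cast_nonneg _
    have h5 := mul_le_mul_of_nonneg_left h3 h4
    nlinarith
  induction f with
  | zero =>
    intro n A B S ws w N c h M hM
    rw [go_zero, pow_zero, mul_one]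
    exact leaf h (by omega)
  | succ f ih =>
    intro n A B S ws w N c h M hM
    rw [go_succ]
    have hleaf := leaf h (M := M) (by omega)
    have h4 : (0 : ℝ) ≤ 4 ^ (f + 1) := by positivity
    by_cases h1 : Nat.beq (o N) 0 = true
    · rw [h1, cond_true]
      have h2 : sl N = 0 := ho N (Nat.eq_of_beq_eq_true h1)
      rw [h2, zero_mul, add_zero] at hleaf
      have := mul_le_mul_of_nonneg_right hleaf h4
      push_cast at this ⊢
      linarith
    · rw [Bool.not_eq_true] at h1
      rw [h1, cond_false]
      by_cases h2 : Nat.ble (o N * tl ws (n + n) S (4 * w) * 4 ^ (f + 1)) thr = true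
      · rw [h2, cond_true]
        have := mul_le_mul_of_nonneg_right hleaf h4
        push_cast at this ⊢
        linarith
      · rw [Bool.not_eq_true] at h2
        rw [h2, cond_false]
        -- the four children
        have i00 : Inv (n + 1) A B S (w :: ws) w (cond (Nat.testBit S (n + 1)) N (N + 1))
            (set2 c (n + 1) false false) := by
          apply inv_step h false false (by simp) (by simp)
          · intro m; simp
          · simp
          · cases S.testBit (n + 1) <;> simp
        have i11 : Inv (n + 1) (A + 2 ^ (n + 1)) (B + 2 ^ (n + 1))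
            (S ||| (A + 2 ^ (n + 1)) * 2 ^ (n + 1) ||| (B + 2 ^ (n + 1)) * 2 ^ (n + 1))
            (w :: ws) ((w + 3) / 4) N (set2 c (n + 1) true true) := by
          apply inv_step h true true (by simp) (by simp)
          · intro m
            rw [Nat.testBit_or, Nat.testBit_or, Bool.or_eq_true, Bool.or_eq_true]
            tauto
          · have := quarter_le w
            simp only [if_true]
            linarith
          · simp
        have i10 : Inv (n + 1) (A + 2 ^ (n + 1)) B (S ||| B * 2 ^ (n + 1))
            (w :: ws) ((w + 1) / 2) N (set2 c (n + 1) true false) := by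
          apply inv_step h true false (by simp) (by simp)
          · intro m
            rw [Nat.testBit_or, Bool.or_eq_true]
            simp
          · have := half_le w
            simp only [if_true, Bool.false_eq_true, if_false, mul_one]
            linarith
          · simp
        have i01 : Inv (n + 1) A (B + 2 ^ (n + 1)) (S ||| A * 2 ^ (n + 1))
            (w :: ws) ((w + 1) / 2) N (set2 c (n + 1) false true) := by
          apply inv_step h false true (by simp) (by simp)
          · intro m
            rw [Nat.testBit_or, Bool.or_eq_true]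
            simp
          · have := half_le w
            simp only [if_true, Bool.false_eq_true, if_false, one_mul]
            linarith
          · simp
        have v00 := ih i00 (M := M) (by omega)
        have v11 := ih i11 (M := M) (by omega)
        have v10 := ih i10 (M := M) (by omega)
        have v01 := ih i01 (M := M) (by omega)
        have hs := V_split u (M := M) (n := n) (by omega) c
        by_cases h3 : Nat.beq A B = true
        · rw [h3, cond_true]
          have hAB : A = B := Nat.eq_of_beq_eq_true h3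
          have hsym : V u M (n + 1) (set2 c (n + 1) false true) =
              V u M (n + 1) (set2 c (n + 1) true false) := by
            rw [← V_swap u M (n + 1) (set2 c (n + 1) false true)]
            apply V_congr
            intro i hi b
            by_cases hin : i = n + 1
            · subst hin
              cases b <;> simp
            · simp only
              rw [set2_ne _ hin, set2_ne _ hin]
              have e1 := h.hA i
              have e2 := h.hB i
              rw [← hAB, e1, decide_eq_true (show i ≤ n by omega), Bool.true_and,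
                Bool.true_and] at e2
              cases b
              · exact e2.symm
              · exact e2
          subst hAB
          have e : S ||| (A + 2 ^ (n + 1)) * 2 ^ (n + 1) ||| (A + 2 ^ (n + 1)) * 2 ^ (n + 1) =
              S ||| (A + 2 ^ (n + 1)) * 2 ^ (n + 1) := by
            rw [Nat.or_assoc, Nat.or_self]
          rw [e] at v11
          rw [hs, hsym, pow_succ (4 : ℝ) f]
          push_cast
          linarith
        · rw [Bool.not_eq_true] at h3
          rw [h3, cond_false, hs, pow_succ (4 : ℝ) f]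
          push_cast
          linarith

end Pool.Agent.Helper29.Mstd
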